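import Mathlib
import Pool.Agent.H730R2.AA.MainTerm
import Pool.Agent.H730R2.AA.WdLim
import Pool.Agent.H730R2.AA.Euler

set_option autoImplicit false

/-! # The main term for squarefree `D` with `D % 4 ≠ 1`: Artin's constant without correction -/

namespace Pool.Agent.H74R5

open Finset Filter Topology
open Pool.Agent.H730R2.AA (PR Wd mainT ker1 mem_ker1 ker1_card wsum_tendsto jmod main_eq Wd_bound)

/-- Artin's constant -/
noncomputable def artA : ℝ := ∏' p : Nat.Primes, (1 - 1 / (((p : ℕ) : ℝ) * (((p : ℕ) : ℝ) - 1)))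

lemma jac_one_of_mod (k e : ℕ) (h : k % e = 1 % e) : jacobiSym (k : ℤ) e = 1 := by
  rw [jacobiSym.mod_left]
  have h3 : ((k : ℤ) % (e : ℤ)) = (1 : ℤ) % (e : ℤ) := by exact_mod_cast h
  rw [h3, ← jacobiSym.mod_left, jacobiSym.one_left]

/-- an odd divisor of `2 ^ j * m` divides `m` -/
lemma odd_dvd {a j m : ℕ} (ha : Odd a) (h : a ∣ 2 ^ j * m) : a ∣ m := by
  have hc : Nat.Coprime a (2 ^ j) := by
    apply Nat.Coprime.pow_right
    exact (Nat.coprime_two_left.2 ha).symm
  exact hc.dvd_of_dvd_mul_left h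

/-- a class `≡ 1 mod d` with character value `-1` -/
theorem exists_neg4 (D : ℤ) (hD : Squarefree D) (h4 : D % 4 ≠ 1) (d : ℕ) (hd : Squarefree d) :
    ∃ k : ℕ, k.Coprime (d * (4 * D.natAbs)) ∧ k % d = 1 % d ∧ jacobiSym D k = -1 := by
  set n := D.natAbs with hn
  have hn0 : n ≠ 0 := Int.natAbs_ne_zero.2 hD.ne_zero
  have hd0 : d ≠ 0 := hd.ne_zero
  have hnd0 : n * d ≠ 0 := mul_ne_zero hn0 hd0
  obtain ⟨j, m, hm2, hm⟩ := Nat.exists_eq_two_pow_mul_odd hnd0
  have hm0 : m ≠ 0 := by
    rintro rfl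
    simp at hm2
  have hc2 : Nat.Coprime 2 m := Nat.coprime_two_left.2 hm2
  have hc8 : Nat.Coprime 8 m := by
    have : (8 : ℕ) = 2 ^ 3 := by norm_num
    rw [this]
    exact Nat.Coprime.pow_left _ hc2
  set r : ℕ := if 2 ∣ n then 5 else 3 with hr
  obtain ⟨k, hk8, hkm⟩ := Nat.chineseRemainder hc8 r 1
  have hk8' : k % 8 = r := by
    have : k % 8 = r % 8 := hk8
    rw [this, hr]
    split_ifs <;> rfl
  have hkm' : k % m = 1 % m := hkm
  have hkodd : k % 2 = 1 := by
    rw [hr] at hk8'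
    split_ifs at hk8' <;> omega
  have hkO : Odd k := Nat.odd_iff.2 hkodd
  have hk2 : Nat.Coprime k 2 := (Nat.coprime_two_left.2 hkO).symm
  have hkcm : Nat.Coprime k m := by
    have h1 : Nat.gcd k m = Nat.gcd 1 m := hkm.gcd_eq
    rw [Nat.Coprime, h1, Nat.gcd_one_left]
  refine ⟨k, ?_, ?_, ?_⟩
  · have h1 : d * (4 * n) = 2 ^ 2 * (2 ^ j * m) := by
      rw [← hm]; ring
    rw [h1]
    exact Nat.Coprime.mul_right (Nat.Coprime.pow_right _ hk2)
      (Nat.Coprime.mul_right (Nat.Coprime.pow_right _ hk2) hkcm)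
  · have hd2m : d ∣ 2 * m := by
      have hdn : d ∣ 2 ^ j * m := by rw [← hm]; exact Dvd.intro_left n rfl
      rcases Nat.even_or_odd d with he | ho
      · obtain ⟨e, he⟩ := he
        have he' : d = 2 * e := by omega
        have heo : Odd e := by
          rcases Nat.even_or_odd e with h | h
          · exfalso
            obtain ⟨f, hf⟩ := h
            have h22 : 2 * 2 ∣ d := ⟨f, by omega⟩
            have := hd 2 h22
            rw [Nat.isUnit_iff] at this
            omega
          · exact h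
        have : e ∣ m := odd_dvd heo ((Dvd.intro_left 2 he'.symm).trans hdn)
        rw [he']
        exact Nat.mul_dvd_mul_left 2 this
      · exact (odd_dvd ho hdn).trans (Dvd.intro_left 2 rfl)
    have h2m : k ≡ 1 [MOD 2 * m] := by
      rw [← Nat.modEq_and_modEq_iff_modEq_mul hc2]
      exact ⟨hkodd, hkm⟩
    exact h2m.of_dvd hd2m
  · by_cases h2 : 2 ∣ n
    · -- `D` even
      have hk : k % 8 = 5 := by rw [hk8', hr, if_pos h2]
      have h2D : (2 : ℤ) ∣ D := by
        rw [← Int.natAbs_dvd_natAbs]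
        exact h2
      obtain ⟨E, hE⟩ := h2D
      have hEodd : Odd E.natAbs := by
        rcases Nat.even_or_odd E.natAbs with h | h
        · exfalso
          have h5 : (2 : ℤ) ∣ E := by
            rw [← Int.natAbs_dvd_natAbs]
            exact h.two_dvd
          obtain ⟨F, hF⟩ := h5
          have h22 : (2 : ℤ) * 2 ∣ D := ⟨F, by rw [hE, hF]; ring⟩
          have := hD 2 h22
          rw [Int.isUnit_iff] at this
          omega
        · exact h
      have hEm : E.natAbs ∣ m := by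
        apply odd_dvd hEodd (j := j)
        rw [← hm]
        have : n = 2 * E.natAbs := by rw [hn, hE, Int.natAbs_mul]; rfl
        rw [this]
        exact ⟨2 * d, by ring⟩
      have hkE : k % E.natAbs = 1 % E.natAbs := (hkm.of_dvd hEm : k ≡ 1 [MOD E.natAbs])
      have hJ1 : jacobiSym (E.natAbs : ℤ) k = 1 := by
        rw [jacobiSym.quadratic_reciprocity_one_mod_four' hEodd (by omega)]
        exact jac_one_of_mod _ _ hkE
      have hJE : jacobiSym E k = 1 := by
        rcases Int.natAbs_eq E with h | h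
        · rw [h]; exact hJ1
        · rw [h, jacobiSym.neg _ hkO, hJ1, ZMod.χ₄_nat_one_mod_four (by omega)]
          norm_num
      have hJ2 : jacobiSym 2 k = -1 := by
        rw [jacobiSym.at_two hkO]
        have : ((k : ℕ) : ZMod 8) = 5 := by
          have h6 : ((k : ℕ) : ZMod 8) = ((5 : ℕ) : ZMod 8) := by
            rw [ZMod.natCast_eq_natCast_iff']
            exact hk
          rw [h6]
          rfl
        rw [this]
        decide
      rw [hE, jacobiSym.mul_left, hJ2, hJE]
      norm_num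
    · -- `D` odd
      have hk : k % 8 = 3 := by rw [hk8', hr, if_neg h2]
      have hnO : Odd n := by
        rcases Nat.even_or_odd n with h | h
        · exact absurd h.two_dvd h2
        · exact h
      have hnm : n ∣ m := by
        apply odd_dvd hnO (j := j)
        rw [← hm]
        exact Dvd.intro d rfl
      have hkn : k % n = 1 % n := (hkm.of_dvd hnm : k ≡ 1 [MOD n])
      have hJ := jac_one_of_mod k n hkn
      rcases Int.natAbs_eq D with h | h
      · have hn4 : n % 4 = 3 := by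
          have := Nat.odd_iff.1 hnO
          omega
        rw [h, ← hn, jacobiSym.quadratic_reciprocity_three_mod_four hn4 (by omega), hJ]
      · have hn4 : n % 4 = 1 := by
          have := Nat.odd_iff.1 hnO
          omega
        rw [h, ← hn, jacobiSym.neg _ hkO, jacobiSym.quadratic_reciprocity_one_mod_four hn4 hkO, hJ,
          ZMod.χ₄_nat_three_mod_four (by omega)]
        norm_num

/-- the character value of a unit -/
noncomputable def chiD (D : ℤ) (N : ℕ) (u : (ZMod N)ˣ) : ℤ := jacobiSym D (u : ZMod N).val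

/-- periodicity of the Jacobi symbol in the lower argument -/
lemma jac_period (D : ℤ) {N : ℕ} (h : 4 * D.natAbs ∣ N) (hN : 2 ∣ N) {a : ℕ} (ha : Odd a) :
    jacobiSym D (a % N) = jacobiSym D a := by
  have ha' : Odd (a % N) := by
    rw [Nat.odd_iff] at ha ⊢
    rw [Nat.mod_mod_of_dvd _ hN]
    exact ha
  rw [jacobiSym.mod_right D ha', jacobiSym.mod_right D ha, Nat.mod_mod_of_dvd _ h]

lemma unit_odd {N : ℕ} (hN : 2 ∣ N) (u : (ZMod N)ˣ) : Odd (u : ZMod N).val := by
  have h := ZMod.val_coe_unit_coprime u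
  have h2 : Nat.Coprime (u : ZMod N).val 2 := h.coprime_dvd_right hN
  exact Nat.coprime_two_left.1 h2.symm

theorem chiD_mul (D : ℤ) (N : ℕ) [NeZero N] (h : 4 * D.natAbs ∣ N) (u v : (ZMod N)ˣ) :
    chiD D N (u * v) = chiD D N u * chiD D N v := by
  have hN : 2 ∣ N := (Dvd.intro (2 * D.natAbs) (by ring)).trans h
  unfold chiD
  have hu := unit_odd hN u
  have hv := unit_odd hN v
  have hu0 : NeZero (u : ZMod N).val := ⟨hu.pos.ne'⟩
  have hv0 : NeZero (v : ZMod N).val := ⟨hv.pos.ne'⟩
  rw [Units.val_mul, ZMod.val_mul, jac_period D h hN (hu.mul hv), jacobiSym.mul_right]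

theorem chiD_sum_zero (D : ℤ) (hD : Squarefree D) (h4 : D % 4 ≠ 1) (d : ℕ) (hd : Squarefree d)
    (n : ℕ) (hn : n = 4 * D.natAbs) [NeZero (d * n)] :
    ∑ u ∈ ker1 (d * n) d, chiD D (d * n) u = 0 := by
  classical
  obtain ⟨k, hk1, hk2, hk3⟩ := exists_neg4 D hD h4 d hd
  rw [← hn] at hk1
  have hnN : 4 * D.natAbs ∣ d * n := by rw [← hn]; exact Dvd.intro_left d rfl
  have h2N : 2 ∣ d * n := ⟨d * (2 * D.natAbs), by rw [hn]; ring⟩
  have hkO : Odd k := Nat.coprime_two_left.1 ((hk1.coprime_dvd_right h2N).symm)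
  set u0 : (ZMod (d * n))ˣ := ZMod.unitOfCoprime k hk1 with hu0
  have hval : (u0 : ZMod (d * n)).val = k % (d * n) := by
    rw [hu0, ZMod.coe_unitOfCoprime, ZMod.val_natCast]
  have hc0 : chiD D (d * n) u0 = -1 := by
    unfold chiD
    rw [hval, jac_period D hnN h2N hkO, hk3]
  have hu1 : u0 ∈ ker1 (d * n) d := by
    rw [ker1, Finset.mem_filter]
    refine ⟨Finset.mem_univ _, ?_⟩
    rw [hval, Nat.mod_mod_of_dvd _ (Dvd.intro n rfl), hk2]
  have hdd : d ∣ d * n := Dvd.intro n rfl
  have h1 : ∑ u ∈ ker1 (d * n) d, chiD D (d * n) u =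
      ∑ u ∈ ker1 (d * n) d, chiD D (d * n) (u0 * u) := by
    symm
    refine Finset.sum_equiv (Equiv.mulLeft u0) (fun u => ?_) (fun u _ => ?_)
    · rw [mem_ker1 _ _ hdd, Equiv.coe_mulLeft, mem_ker1 _ _ hdd, map_mul,
        (mem_ker1 _ _ hdd u0).1 hu1, one_mul]
    · rw [Equiv.coe_mulLeft]
  have h2 : ∑ u ∈ ker1 (d * n) d, chiD D (d * n) (u0 * u) =
      - ∑ u ∈ ker1 (d * n) d, chiD D (d * n) u := by
    rw [← Finset.sum_neg_distrib]
    refine Finset.sum_congr rfl fun u _ => ?_
    rw [chiD_mul D _ hnN, hc0]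
    ring
  omega

theorem Wd_lim4 (D : ℤ) (hD : Squarefree D) (h4 : D % 4 ≠ 1) (d : ℕ) (hd : Squarefree d) :
    Tendsto (fun x : ℕ => Wd D d x / (Nat.primeCounting x : ℝ)) atTop
      (𝓝 (1 / (Nat.totient d : ℝ))) := by
  classical
  have hD0 : D ≠ 0 := hD.ne_zero
  have hd0 : d ≠ 0 := hd.ne_zero
  set n := 4 * D.natAbs with hn
  have hn0 : n ≠ 0 := by
    have := Int.natAbs_ne_zero.2 hD0
    omega
  have hN : NeZero (d * n) := ⟨Nat.mul_ne_zero hd0 hn0⟩
  have hnN : n ∣ d * n := Dvd.intro_left d rfl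
  have h2N : 2 ∣ d * n := ⟨d * (2 * D.natAbs), by rw [hn]; ring⟩
  set w : ZMod (d * n) → ℝ := fun a => if a.val % d = 1 % d then
    (1 + (if 2 ∣ d then (jacobiSym D a.val : ℝ) else 0)) else 0 with hw
  have h1 : ∀ x : ℕ, Wd D d x = ∑ p ∈ PR D x, w (p : ZMod (d * n)) := by
    intro x
    rw [Wd, Finset.sum_filter]
    refine Finset.sum_congr rfl fun p hp => ?_
    rw [PR, Finset.mem_filter] at hp
    rw [hw]
    simp only [ZMod.val_natCast]
    rw [Nat.mod_mod_of_dvd _ (Dvd.intro n rfl),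
      jac_period D hnN h2N (hp.2.1.odd_of_ne_two hp.2.2.1)]
  have h2 : ∑ u : (ZMod (d * n))ˣ, w (u : ZMod (d * n)) =
      (((d * n).totient : ℕ) : ℝ) * (1 / (Nat.totient d : ℝ)) := by
    have e1 : ∑ u : (ZMod (d * n))ˣ, w (u : ZMod (d * n)) =
        ∑ u ∈ ker1 (d * n) d, (1 + (if 2 ∣ d then (chiD D (d * n) u : ℝ) else 0)) := by
      rw [ker1, Finset.sum_filter]
      rfl
    have htd : (0 : ℝ) < d.totient := by
      exact_mod_cast Nat.totient_pos.2 (Nat.pos_of_ne_zero hd0)
    have e2 : (((d * n).totient : ℕ) : ℝ) = ((ker1 (d * n) d).card : ℝ) * (d.totient : ℝ) := by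
      rw [← ker1_card (d * n) d (Dvd.intro n rfl)]
      push_cast
      ring
    rw [e1, e2, Finset.sum_add_distrib, Finset.sum_const, nsmul_eq_mul, mul_one]
    have e3 : ∑ u ∈ ker1 (d * n) d, (if 2 ∣ d then (chiD D (d * n) u : ℝ) else 0) = 0 := by
      by_cases h2d : 2 ∣ d
      · simp only [h2d, if_true]
        rw [← Int.cast_sum, chiD_sum_zero D hD h4 d hd n hn]
        norm_num
      · simp only [h2d, if_false]
        rw [Finset.sum_const_zero]
    rw [e3]
    field_simp
    ring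
  have h3 := wsum_tendsto D hD0 (d * n) w
  rw [h2] at h3
  have ht : (((d * n).totient : ℕ) : ℝ) ≠ 0 := by
    have := Nat.totient_pos.2 (Nat.pos_of_ne_zero hN.out)
    exact_mod_cast this.ne'
  rw [mul_div_cancel_left₀ _ ht] at h3
  exact h3.congr fun x => by rw [h1]

/-- the main term: Artin's constant -/
theorem main_lim4 (D : ℤ) (hD : Squarefree D) (h4 : D % 4 ≠ 1) :
    Tendsto (fun x : ℕ => mainT D x / (Nat.primeCounting x : ℝ)) atTop (𝓝 artA) := by
  obtain ⟨C, hC, hb⟩ := Wd_bound D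
  have hA : artA = ∑' d : ℕ, ((ArithmeticFunction.moebius d : ℤ) : ℝ) / d *
      (1 / (Nat.totient d : ℝ)) := by
    unfold artA
    rw [Pool.Agent.H730R2.AA.Euler.tprod_eq]
    apply tsum_congr
    intro d
    unfold Pool.Agent.H730R2.AA.Euler.hh
    ring
  rw [hA]
  have e1 : ∀ x : ℕ, mainT D x / (Nat.primeCounting x : ℝ) =
      ∑' d : ℕ, ((ArithmeticFunction.moebius d : ℤ) : ℝ) / d *
        (Wd D d x / (Nat.primeCounting x : ℝ)) := by
    intro x
    rw [main_eq, ← tsum_div_const]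
    apply tsum_congr
    intro d
    rw [mul_div_assoc]
  simp_rw [e1]
  apply tendsto_tsum_of_dominated_convergence
    (bound := fun d : ℕ => C * (d : ℝ) ^ (-(5 : ℝ) / 4))
  · apply Summable.mul_left
    rw [Real.summable_nat_rpow]
    norm_num
  · intro d
    by_cases hd : Squarefree d
    · exact (Wd_lim4 D hD h4 d hd).const_mul _
    · rw [ArithmeticFunction.moebius_eq_zero_of_not_squarefree hd]
      simp
  · filter_upwards [eventually_ge_atTop 2] with x hx d
    rcases Nat.eq_zero_or_pos d with rfl | hd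
    · simp
    · have hd0 : (0 : ℝ) < d := by exact_mod_cast hd
      have h1 := hb d x hd hx
      have hmu : |((ArithmeticFunction.moebius d : ℤ) : ℝ)| ≤ 1 := by
        have := ArithmeticFunction.abs_moebius_le_one (n := d)
        exact_mod_cast this
      rw [Real.norm_eq_abs, abs_mul, abs_div, abs_div, Nat.abs_cast, Nat.abs_cast]
      calc |((ArithmeticFunction.moebius d : ℤ) : ℝ)| / d *
            (|Wd D d x| / (Nat.primeCounting x : ℝ))
          ≤ 1 / d * (C * (d : ℝ) ^ (-(1 : ℝ) / 4)) := by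
            apply mul_le_mul _ h1 (by positivity) (by positivity)
            gcongr
        _ = C * (d : ℝ) ^ (-(5 : ℝ) / 4) := by
            have : (d : ℝ) ^ (-(5 : ℝ) / 4) = (d : ℝ) ^ (-(1 : ℝ) / 4) * (d : ℝ) ^ (-1 : ℝ) := by
              rw [← Real.rpow_add hd0]
              norm_num
            rw [this, Real.rpow_neg_one]
            field_simp

end Pool.Agent.H74R5
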