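import Mathlib
import Pool.Agent.H74R5.MainA

set_option autoImplicit false

/-! # The main term for the primes `p` with `gcd(p - 1, r) = 1` -/

namespace Pool.Agent.H74R5

open Finset Filter Topology
open Pool.Agent.H730R2.AA (PR Wd mainT rho main_eq Wd_bound)
open Pool.Agent.H730R2.AA.MTLib (mod_iff rho_expand)
open Pool.Agent.H730R2.AA.Euler (hh gg uu gg_euler gg_le hh_summable hh_not_sqf)

/-- primes `≡ 1 mod n`, weighted -/
noncomputable def Us (D : ℤ) (s : ℝ) (n x : ℕ) : ℝ :=
  ∑ p ∈ (PR D x).filter (fun p => n ∣ p - 1), (1 + (if 2 ∣ n then s * (jacobiSym D p : ℝ) else 0))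

/-- primes `≡ 1 mod d` with `gcd(p - 1, r) = 1`, weighted -/
noncomputable def Vs (D : ℤ) (s : ℝ) (r d x : ℕ) : ℝ :=
  ∑ p ∈ (PR D x).filter (fun p => d ∣ p - 1 ∧ Nat.Coprime (p - 1) r),
    (1 + (if 2 ∣ d then s * (jacobiSym D p : ℝ) else 0))

/-- the main term -/
noncomputable def mainR (D : ℤ) (s : ℝ) (r x : ℕ) : ℝ :=
  ∑ p ∈ (PR D x).filter (fun p => Nat.Coprime (p - 1) r), rho p * (1 - s * (jacobiSym D p : ℝ))

lemma filt_eq (D : ℤ) (n x : ℕ) : (PR D x).filter (fun p => n ∣ p - 1) =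
    (PR D x).filter (fun p => p % n = 1 % n) := by
  apply Finset.filter_congr
  intro p hp
  rw [PR, Finset.mem_filter] at hp
  rw [mod_iff hp.2.1.one_le]

lemma Us_eq (D : ℤ) (s : ℝ) (n x : ℕ) : Us D s n x = (1 - s) * Us D 0 n x + s * Wd D n x := by
  unfold Us Wd
  rw [← filt_eq, Finset.mul_sum, Finset.mul_sum, ← Finset.sum_add_distrib]
  apply Finset.sum_congr rfl
  intro p _
  split_ifs <;> ring

lemma Us0_odd (D : ℤ) (n x : ℕ) (h : ¬ 2 ∣ n) : Us D 0 n x = Wd D n x := by
  unfold Us Wd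
  rw [← filt_eq]
  apply Finset.sum_congr rfl
  intro p _
  rw [if_neg h, if_neg h]

lemma Us0_two (D : ℤ) (n x : ℕ) (h : ¬ 2 ∣ n) : Us D 0 (2 * n) x = Us D 0 n x := by
  unfold Us
  have e : (PR D x).filter (fun p => 2 * n ∣ p - 1) = (PR D x).filter (fun p => n ∣ p - 1) := by
    apply Finset.filter_congr
    intro p hp
    rw [PR, Finset.mem_filter] at hp
    constructor
    · intro h1
      exact (Dvd.intro_left 2 rfl).trans h1
    · intro h1
      have h2 : 2 ∣ p - 1 := by
        have := hp.2.1.eq_two_or_odd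
        omega
      exact Nat.Coprime.mul_dvd_of_dvd_of_dvd
        ((Nat.Prime.coprime_iff_not_dvd Nat.prime_two).2 h) h2 h1
  rw [e]
  apply Finset.sum_congr rfl
  intro p _
  simp

lemma Us0_lim (D : ℤ) (hD : Squarefree D) (h4 : D % 4 ≠ 1) (n : ℕ) (hn : Squarefree n) :
    Tendsto (fun x : ℕ => Us D 0 n x / (Nat.primeCounting x : ℝ)) atTop
      (𝓝 (1 / (Nat.totient n : ℝ))) := by
  by_cases h : 2 ∣ n
  · obtain ⟨m, rfl⟩ := h
    have hm : ¬ 2 ∣ m := by
      rintro ⟨c, rfl⟩
      have := hn 2 ⟨c, by ring⟩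
      rw [Nat.isUnit_iff] at this
      omega
    have hms : Squarefree m := hn.squarefree_of_dvd (Dvd.intro_left 2 rfl)
    have ht : Nat.totient (2 * m) = Nat.totient m := by
      rw [Nat.totient_mul ((Nat.Prime.coprime_iff_not_dvd Nat.prime_two).2 hm)]
      simp
    rw [ht]
    refine (Wd_lim4 D hD h4 m hms).congr fun x => ?_
    rw [Us0_two D m x hm, Us0_odd D m x hm]
  · refine (Wd_lim4 D hD h4 n hn).congr fun x => ?_
    rw [Us0_odd D n x h]

lemma Us_lim (D : ℤ) (hD : Squarefree D) (h4 : D % 4 ≠ 1) (s : ℝ) (n : ℕ) (hn : Squarefree n) :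
    Tendsto (fun x : ℕ => Us D s n x / (Nat.primeCounting x : ℝ)) atTop
      (𝓝 (1 / (Nat.totient n : ℝ))) := by
  have h1 := ((Us0_lim D hD h4 n hn).const_mul (1 - s)).add ((Wd_lim4 D hD h4 n hn).const_mul s)
  have e : (1 - s) * (1 / (Nat.totient n : ℝ)) + s * (1 / (Nat.totient n : ℝ)) =
      1 / (Nat.totient n : ℝ) := by ring
  rw [e] at h1
  refine h1.congr fun x => ?_
  rw [Us_eq D s n x]
  ring

lemma mob_cop (m r : ℕ) (hr : r ≠ 0) :
    ∑ e ∈ r.divisors, (if e ∣ m then ((ArithmeticFunction.moebius e : ℤ) : ℝ) else 0) =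
      if Nat.Coprime m r then 1 else 0 := by
  rw [← Finset.sum_filter]
  have e1 : r.divisors.filter (fun e => e ∣ m) = (Nat.gcd m r).divisors := by
    ext e
    rw [Finset.mem_filter, Nat.mem_divisors, Nat.mem_divisors, Nat.dvd_gcd_iff]
    constructor
    · rintro ⟨⟨h1, h2⟩, h3⟩
      exact ⟨⟨h3, h1⟩, Nat.gcd_ne_zero_right hr⟩
    · rintro ⟨⟨h1, h2⟩, h3⟩
      exact ⟨⟨h2, hr⟩, h1⟩
  rw [e1]
  have h2 : ∑ e ∈ (Nat.gcd m r).divisors, ((ArithmeticFunction.moebius e : ℤ) : ℝ) =
      ((∑ e ∈ (Nat.gcd m r).divisors, ArithmeticFunction.moebius e : ℤ) : ℝ) := by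
    push_cast; rfl
  rw [h2]
  have h3 : (∑ e ∈ (Nat.gcd m r).divisors, ArithmeticFunction.moebius e) =
      (1 : ArithmeticFunction ℤ) (Nat.gcd m r) := by
    rw [← ArithmeticFunction.moebius_mul_coe_zeta, ArithmeticFunction.coe_mul_zeta_apply]
  rw [h3, ArithmeticFunction.one_apply]
  unfold Nat.Coprime
  split_ifs <;> simp

lemma Vs_eq (D : ℤ) (s : ℝ) (r d x : ℕ) (hr : Odd r) (hrd : Nat.Coprime d r) :
    Vs D s r d x = ∑ e ∈ r.divisors, ((ArithmeticFunction.moebius e : ℤ) : ℝ) * Us D s (d * e) x := by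
  classical
  have hr0 : r ≠ 0 := by
    rintro rfl
    simp at hr
  have h1 : Vs D s r d x = ∑ p ∈ (PR D x).filter (fun p => d ∣ p - 1),
      (1 + (if 2 ∣ d then s * (jacobiSym D p : ℝ) else 0)) *
        ∑ e ∈ r.divisors, (if e ∣ p - 1 then ((ArithmeticFunction.moebius e : ℤ) : ℝ) else 0) := by
    unfold Vs
    rw [← Finset.filter_filter, Finset.sum_filter]
    apply Finset.sum_congr rfl
    intro p _
    rw [mob_cop _ _ hr0]
    split_ifs <;> ring
  rw [h1]
  simp_rw [Finset.mul_sum]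
  rw [Finset.sum_comm]
  apply Finset.sum_congr rfl
  intro e he
  have hed := (Nat.mem_divisors.1 he).1
  have hde : Nat.Coprime d e := hrd.coprime_dvd_right hed
  have heo : ¬ 2 ∣ e := by
    intro h
    have := h.trans hed
    rw [Nat.odd_iff] at hr
    omega
  have h2 : (2 ∣ d * e) ↔ (2 ∣ d) := by
    rw [Nat.Prime.dvd_mul Nat.prime_two]
    exact ⟨fun h => h.resolve_right heo, Or.inl⟩
  unfold Us
  rw [Finset.mul_sum]
  have h3 : (PR D x).filter (fun p => d * e ∣ p - 1) =
      ((PR D x).filter (fun p => d ∣ p - 1)).filter (fun p => e ∣ p - 1) := by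
    rw [Finset.filter_filter]
    apply Finset.filter_congr
    intro p _
    constructor
    · intro h
      exact ⟨(Dvd.intro e rfl).trans h, (Dvd.intro_left d rfl).trans h⟩
    · rintro ⟨h, h'⟩
      exact Nat.Coprime.mul_dvd_of_dvd_of_dvd hde h h'
  conv_rhs => rw [h3, Finset.sum_filter]
  apply Finset.sum_congr rfl
  intro p _
  by_cases he1 : e ∣ p - 1
  · rw [if_pos he1, if_pos he1]
    simp only [h2]
    ring
  · rw [if_neg he1, if_neg he1, mul_zero]

lemma Vs_zero (D : ℤ) (s : ℝ) (r d x : ℕ) (hrd : ¬ Nat.Coprime d r) : Vs D s r d x = 0 := by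
  unfold Vs
  apply Finset.sum_eq_zero
  intro p hp
  exfalso
  rw [Finset.mem_filter] at hp
  exact hrd (hp.2.2.coprime_dvd_left hp.2.1)

lemma Vs_big (D : ℤ) (s : ℝ) {r d x : ℕ} (h : x < d) : Vs D s r d x = 0 := by
  unfold Vs
  apply Finset.sum_eq_zero
  intro p hp
  exfalso
  rw [Finset.mem_filter, PR, Finset.mem_filter, Finset.mem_range] at hp
  obtain ⟨⟨hpx, hpp, hp2, -⟩, hmod, -⟩ := hp
  have h2 := hpp.two_le
  have := Nat.le_of_dvd (by omega) hmod
  omega

theorem mainR_eq (D : ℤ) (s : ℝ) (r x : ℕ) :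
    mainR D s r x = ∑' d : ℕ, ((ArithmeticFunction.moebius d : ℤ) : ℝ) / d * Vs D s r d x := by
  rw [tsum_eq_sum (s := Finset.range (x + 1)) (by
    intro d hd
    rw [Finset.mem_range, not_lt] at hd
    rw [Vs_big D s (by omega), mul_zero])]
  have e1 : ∀ d ∈ Finset.range (x + 1),
      ((ArithmeticFunction.moebius d : ℤ) : ℝ) / d * Vs D s r d x =
      ∑ p ∈ (PR D x).filter (fun p => Nat.Coprime (p - 1) r),
        (if d ∣ p - 1 then ((ArithmeticFunction.moebius d : ℤ) : ℝ) / d *
        (1 + (if 2 ∣ d then s * (jacobiSym D p : ℝ) else 0)) else 0) := by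
    intro d _
    have e2 : (PR D x).filter (fun p => d ∣ p - 1 ∧ Nat.Coprime (p - 1) r) =
        ((PR D x).filter (fun p => Nat.Coprime (p - 1) r)).filter (fun p => d ∣ p - 1) := by
      rw [Finset.filter_filter]
      apply Finset.filter_congr
      intro p _
      exact and_comm
    rw [Vs, Finset.mul_sum, e2, Finset.sum_filter]
  rw [Finset.sum_congr rfl e1, Finset.sum_comm, mainR]
  apply Finset.sum_congr rfl
  intro p hp
  rw [Finset.mem_filter, PR, Finset.mem_filter, Finset.mem_range] at hp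
  obtain ⟨⟨hpx, hpp, hp2, -⟩, -⟩ := hp
  rw [rho_expand hpp hp2, ← Finset.sum_filter]
  have h2 := hpp.two_le
  apply Finset.sum_subset_zero_on_sdiff
  · intro d hd
    rw [Nat.mem_divisors] at hd
    rw [Finset.mem_filter, Finset.mem_range]
    have := Nat.le_of_dvd (by omega) hd.1
    exact ⟨by omega, hd.1⟩
  · intro d hd
    rw [Finset.mem_sdiff, Finset.mem_filter, Nat.mem_divisors] at hd
    exfalso
    exact hd.2 ⟨hd.1.2, by omega⟩
  · intro d _
    rfl

lemma PR_sub (D : ℤ) (x : ℕ) : PR D x ⊆ PR 1 x := by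
  intro p hp
  rw [PR, Finset.mem_filter] at hp ⊢
  refine ⟨hp.1, hp.2.1, hp.2.2.1, fun h => ?_⟩
  have h1 := Int.le_of_dvd one_pos h
  have h2 := hp.2.1.two_le
  omega

lemma Vs_le (D : ℤ) (s : ℝ) (hs : |s| ≤ 1) (r d x : ℕ) : |Vs D s r d x| ≤ 2 * |Wd 1 d x| := by
  have h1 : |Vs D s r d x| ≤ 2 * (((PR D x).filter (fun p => d ∣ p - 1)).card : ℝ) := by
    unfold Vs
    refine (Finset.abs_sum_le_sum_abs _ _).trans ?_
    have h0 : ∀ p ∈ (PR D x).filter (fun p => d ∣ p - 1 ∧ Nat.Coprime (p - 1) r),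
        |1 + (if 2 ∣ d then s * (jacobiSym D p : ℝ) else 0)| ≤ 2 := by
      intro p _
      split_ifs
      · have h2 : |s * (jacobiSym D p : ℝ)| ≤ 1 := by
          rw [abs_mul]
          have h3 : |(jacobiSym D p : ℝ)| ≤ 1 := by
            rcases jacobiSym.trichotomy D p with h | h | h <;> rw [h] <;> norm_num
          have h4 := abs_nonneg s
          nlinarith [abs_nonneg (jacobiSym D p : ℝ)]
        rw [abs_le] at h2 ⊢
        constructor <;> linarith [h2.1, h2.2]
      · norm_num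
    refine (Finset.sum_le_sum h0).trans ?_
    rw [Finset.sum_const, nsmul_eq_mul, mul_comm]
    have h3 : ((PR D x).filter (fun p => d ∣ p - 1 ∧ Nat.Coprime (p - 1) r)).card ≤
        ((PR D x).filter (fun p => d ∣ p - 1)).card := by
      apply Finset.card_le_card
      intro p hp
      rw [Finset.mem_filter] at hp ⊢
      exact ⟨hp.1, hp.2.1⟩
    have h4 : (((PR D x).filter (fun p => d ∣ p - 1 ∧ Nat.Coprime (p - 1) r)).card : ℝ) ≤
        (((PR D x).filter (fun p => d ∣ p - 1)).card : ℝ) := by exact_mod_cast h3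
    linarith
  have h2 : (((PR D x).filter (fun p => d ∣ p - 1)).card : ℝ) ≤ Wd 1 d x := by
    unfold Wd
    rw [← filt_eq]
    have h3 : ((PR D x).filter (fun p => d ∣ p - 1)).card ≤
        ((PR 1 x).filter (fun p => d ∣ p - 1)).card := by
      apply Finset.card_le_card
      exact Finset.filter_subset_filter _ (PR_sub D x)
    have h4 : (((PR 1 x).filter (fun p => d ∣ p - 1)).card : ℝ) ≤
        ∑ p ∈ (PR 1 x).filter (fun p => d ∣ p - 1),
          (1 + (if 2 ∣ d then (jacobiSym 1 p : ℝ) else 0)) := by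
      rw [Finset.card_eq_sum_ones]
      push_cast
      apply Finset.sum_le_sum
      intro p _
      rw [jacobiSym.one_left]
      split_ifs <;> norm_num
    have h5 : (((PR D x).filter (fun p => d ∣ p - 1)).card : ℝ) ≤
        (((PR 1 x).filter (fun p => d ∣ p - 1)).card : ℝ) := by exact_mod_cast h3
    linarith
  have h3 := le_abs_self (Wd 1 d x)
  linarith

/-- `∑_{e ∣ r} μ(e) / φ(e)` as a product -/
lemma kappa_eq (r : ℕ) (hr : Squarefree r) :
    ∑ e ∈ r.divisors, ((ArithmeticFunction.moebius e : ℤ) : ℝ) * (1 / (Nat.totient e : ℝ)) =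
      ∏ l ∈ r.primeFactors, (1 - 1 / ((l : ℝ) - 1)) := by
  let f : ArithmeticFunction ℝ := ⟨fun n => 1 / (Nat.totient n : ℝ), by simp⟩
  have hf : f.IsMultiplicative := by
    refine ⟨?_, ?_⟩
    · change 1 / (Nat.totient 1 : ℝ) = 1
      simp
    · intro m n hmn
      change 1 / (Nat.totient (m * n) : ℝ) = 1 / (Nat.totient m : ℝ) * (1 / (Nat.totient n : ℝ))
      rw [Nat.totient_mul hmn]
      push_cast
      rw [div_mul_div_comm, mul_one]
  have h := ArithmeticFunction.IsMultiplicative.prodPrimeFactors_one_sub_of_squarefree f hf hr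
  rw [show (∏ l ∈ r.primeFactors, (1 - 1 / ((l : ℝ) - 1))) = ∏ l ∈ r.primeFactors, (1 - f l) from ?_]
  · rw [h]
    rfl
  · apply Finset.prod_congr rfl
    intro l hl
    have hlp := Nat.prime_of_mem_primeFactors hl
    change _ = 1 - 1 / (Nat.totient l : ℝ)
    rw [Nat.totient_prime hlp, Nat.cast_sub hlp.one_le]
    push_cast
    rfl

/-- the density: `∏_{l ∣ r} (1 - 1/(l-1)) ∏_{l ∤ r} (1 - 1/(l(l-1)))` -/
noncomputable def cst (r : ℕ) : ℝ :=
  (∏ l ∈ r.primeFactors, (1 - 1 / ((l : ℝ) - 1))) *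
    ∏' p : Nat.Primes, (if (p : ℕ) ∣ r then 1 else 1 - 1 / (((p : ℕ) : ℝ) * (((p : ℕ) : ℝ) - 1)))

theorem mainR_lim (D : ℤ) (hD : Squarefree D) (h4 : D % 4 ≠ 1) (s : ℝ) (hs : |s| ≤ 1) (r : ℕ)
    (hr : Squarefree r) (hro : Odd r) :
    Tendsto (fun x : ℕ => mainR D s r x / (Nat.primeCounting x : ℝ)) atTop (𝓝 (cst r)) := by
  obtain ⟨C, hC, hb⟩ := Wd_bound 1
  have hA : cst r = ∑' d : ℕ, (∏ l ∈ r.primeFactors, (1 - 1 / ((l : ℝ) - 1))) * gg r d := by
    unfold cst
    rw [tsum_mul_left, ← (gg_euler r).tprod_eq]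
    rfl
  rw [hA]
  have e1 : ∀ x : ℕ, mainR D s r x / (Nat.primeCounting x : ℝ) =
      ∑' d : ℕ, ((ArithmeticFunction.moebius d : ℤ) : ℝ) / d *
        (Vs D s r d x / (Nat.primeCounting x : ℝ)) := by
    intro x
    rw [mainR_eq, ← tsum_div_const]
    apply tsum_congr
    intro d
    rw [mul_div_assoc]
  simp_rw [e1]
  apply tendsto_tsum_of_dominated_convergence
    (bound := fun d : ℕ => 2 * C * (d : ℝ) ^ (-(5 : ℝ) / 4))
  · apply Summable.mul_left
    rw [Real.summable_nat_rpow]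
    norm_num
  · intro d
    by_cases hd : Squarefree d
    · by_cases hc : Nat.Coprime d r
      · have h1 : Tendsto (fun x : ℕ => ∑ e ∈ r.divisors,
            ((ArithmeticFunction.moebius e : ℤ) : ℝ) *
              (Us D s (d * e) x / (Nat.primeCounting x : ℝ))) atTop
            (𝓝 (∑ e ∈ r.divisors, ((ArithmeticFunction.moebius e : ℤ) : ℝ) *
              (1 / (Nat.totient (d * e) : ℝ)))) := by
          apply tendsto_finsetSum
          intro e he
          apply Tendsto.const_mul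
          apply Us_lim D hD h4
          have hed := (Nat.mem_divisors.1 he).1
          exact (Nat.squarefree_mul (hc.coprime_dvd_right hed)).2 ⟨hd, hr.squarefree_of_dvd hed⟩
        have h2 : ∑ e ∈ r.divisors, ((ArithmeticFunction.moebius e : ℤ) : ℝ) *
              (1 / (Nat.totient (d * e) : ℝ)) =
            (∏ l ∈ r.primeFactors, (1 - 1 / ((l : ℝ) - 1))) * (1 / (Nat.totient d : ℝ)) := by
          rw [← kappa_eq r hr, Finset.sum_mul]
          apply Finset.sum_congr rfl
          intro e he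
          have hed := (Nat.mem_divisors.1 he).1
          rw [Nat.totient_mul (hc.coprime_dvd_right hed)]
          push_cast
          rw [mul_assoc, div_mul_div_comm, mul_one, mul_comm (Nat.totient d : ℝ)]
        rw [h2] at h1
        have h3 : gg r d = hh d := by
          unfold gg
          rw [if_pos hc.symm]
        have h5 : (∏ l ∈ r.primeFactors, (1 - 1 / ((l : ℝ) - 1))) * gg r d =
            ((ArithmeticFunction.moebius d : ℤ) : ℝ) / d *
              ((∏ l ∈ r.primeFactors, (1 - 1 / ((l : ℝ) - 1))) * (1 / (Nat.totient d : ℝ))) := by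
          rw [h3]
          unfold hh
          ring
        rw [h5]
        apply Tendsto.const_mul
        refine h1.congr fun x => ?_
        rw [Vs_eq D s r d x hro hc, Finset.sum_div]
        apply Finset.sum_congr rfl
        intro e _
        rw [mul_div_assoc]
      · have h3 : gg r d = 0 := by
          unfold gg
          rw [if_neg (fun h => hc h.symm)]
        rw [h3, mul_zero]
        refine tendsto_const_nhds.congr fun x => ?_
        rw [Vs_zero D s r d x hc]
        simp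
    · have h3 : gg r d = 0 := by
        unfold gg
        rw [hh_not_sqf hd]
        simp
      rw [ArithmeticFunction.moebius_eq_zero_of_not_squarefree hd, h3]
      simp
  · filter_upwards [eventually_ge_atTop 2] with x hx d
    rcases Nat.eq_zero_or_pos d with rfl | hd
    · simp
    · have hd0 : (0 : ℝ) < d := by exact_mod_cast hd
      have h1 := hb d x hd hx
      have hmu : |((ArithmeticFunction.moebius d : ℤ) : ℝ)| ≤ 1 := by
        have := ArithmeticFunction.abs_moebius_le_one (n := d)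
        exact_mod_cast this
      have h2 : |Vs D s r d x| / (Nat.primeCounting x : ℝ) ≤ 2 * (C * (d : ℝ) ^ (-(1 : ℝ) / 4)) := by
        calc |Vs D s r d x| / (Nat.primeCounting x : ℝ) ≤
            2 * |Wd 1 d x| / (Nat.primeCounting x : ℝ) := by
              apply div_le_div_of_nonneg_right (Vs_le D s hs r d x) (Nat.cast_nonneg _)
          _ = 2 * (|Wd 1 d x| / (Nat.primeCounting x : ℝ)) := by ring
          _ ≤ _ := by gcongr
      rw [Real.norm_eq_abs, abs_mul, abs_div, abs_div, Nat.abs_cast, Nat.abs_cast]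
      calc |((ArithmeticFunction.moebius d : ℤ) : ℝ)| / d *
            (|Vs D s r d x| / (Nat.primeCounting x : ℝ))
          ≤ 1 / d * (2 * (C * (d : ℝ) ^ (-(1 : ℝ) / 4))) := by
            apply mul_le_mul _ h2 (by positivity) (by positivity)
            gcongr
        _ = 2 * C * (d : ℝ) ^ (-(5 : ℝ) / 4) := by
            have : (d : ℝ) ^ (-(5 : ℝ) / 4) = (d : ℝ) ^ (-(1 : ℝ) / 4) * (d : ℝ) ^ (-1 : ℝ) := by
              rw [← Real.rpow_add hd0]
              norm_num
            rw [this, Real.rpow_neg_one]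
            field_simp

end Pool.Agent.H74R5
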