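import Mathlib
import Pool.Agent.H771R4.SE.Datum
import Pool.Agent.H74R5.MainR

set_option autoImplicit false

/-! # The counting problems for `D a ^ k` and the primes `p` with `gcd(p - 1, r) = 1` -/

namespace Pool.Agent.H74R5

open Finset Filter Topology
open Pool.Agent.H386R2.Artin (PP Good hL gL LC_pos gL_nonneg gL_le_one)
open Pool.Agent.H730R2.AA (rho)
open Pool.Agent.H730R2.AB (gL_rho)
open Pool.Agent.H771R4.SE

lemma exists_inv (k K : ℕ) (hk : 0 < k) (hK : 0 < K) (h : Nat.Coprime k K) :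
    ∃ u t : ℕ, k * u = 1 + K * t := by
  rcases Nat.eq_or_lt_of_le (Nat.succ_le_of_lt hK) with h1 | h1
  · refine ⟨1, k - 1, ?_⟩
    have : K = 1 := h1.symm
    subst this
    omega
  · obtain ⟨u, -, hu⟩ := Nat.exists_mul_mod_eq_one_of_coprime h h1
    refine ⟨u, k * u / K, ?_⟩
    have := Nat.mod_add_div (k * u) K
    rw [hu] at this
    exact this.symm

section
variable {p : ℕ} [hp : Fact p.Prime]

lemma lin_pow (D : ℤ) (hD : ¬ (p : ℤ) ∣ D) (k : ℕ) (hk0 : 0 < k)
    (hk : ∀ K, K ∣ p - 1 → Odd K → Nat.Coprime k K) :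
    Lin p (fun q : ℕ => (D : ZMod p) * (q : ZMod p) ^ k) := by
  intro K hK hodd
  have hp1 : 0 < p - 1 := by have := hp.out.two_le; omega
  have hK0 : 0 < K := hodd.pos
  have hD' : (D : ZMod p) ≠ 0 := by rwa [Ne, ZMod.intCast_zmod_eq_zero_iff_dvd]
  obtain ⟨u, t, hut⟩ := exists_inv k K hk0 hK0 (hk K hK hodd)
  have he : K * ((p - 1) / K) = p - 1 := Nat.mul_div_cancel' hK
  obtain ⟨e, hedef⟩ : ∃ e, e = (p - 1) / K := ⟨_, rfl⟩
  rw [← hedef] at he
  have he0 : e ≠ 0 := by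
    rintro rfl
    omega
  have hKt : ∀ b : ZMod p, b ≠ 0 → (b ^ (K * t)) ^ e = 1 := by
    intro b hb
    rw [← pow_mul, show K * t * e = (p - 1) * t by rw [← he]; ring, pow_mul,
      ZMod.pow_card_sub_one_eq_one hb, one_pow]
  refine ⟨D ^ u, ?_, fun q => ?_⟩
  · rw [← ZMod.intCast_zmod_eq_zero_iff_dvd]
    push_cast
    exact pow_ne_zero _ hD'
  rw [← hedef]
  push_cast
  by_cases hq : (q : ZMod p) = 0
  · rw [hq, mul_zero, zero_pow hk0.ne', mul_zero]
  · constructor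
    · intro h
      have h1 : ((D : ZMod p) * (q : ZMod p) ^ k) ^ u =
          ((D : ZMod p) ^ u * (q : ZMod p)) * (q : ZMod p) ^ (K * t) := by
        rw [mul_pow, ← pow_mul, hut, pow_add, pow_one]
        ring
      have h2 : (((D : ZMod p) * (q : ZMod p) ^ k) ^ u) ^ e = 1 := by
        rw [← pow_mul, mul_comm u e, pow_mul, h, one_pow]
      rw [h1, mul_pow, hKt _ hq, mul_one] at h2
      exact h2
    · intro h
      have h1 : ((D : ZMod p) ^ u * (q : ZMod p)) ^ k =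
          ((D : ZMod p) * (q : ZMod p) ^ k) * (D : ZMod p) ^ (K * t) := by
        rw [mul_pow, ← pow_mul, mul_comm u k, hut, pow_add, pow_one]
        ring
      have h2 : (((D : ZMod p) ^ u * (q : ZMod p)) ^ k) ^ e = 1 := by
        rw [← pow_mul, mul_comm k e, pow_mul, h, one_pow]
      rw [h1, mul_pow, hKt _ hD', mul_one] at h2
      exact h2

/-- `D q ^ k` and `D ^ u q` have the same order if `k u ≡ 1 mod p - 1` -/
lemma order_pow (D : ℤ) (hD : ¬ (p : ℤ) ∣ D) (k : ℕ) (hk : Nat.Coprime k (p - 1)) (u t : ℕ)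
    (hut : k * u = 1 + (p - 1) * t) (q : ZMod p) (hq : q ≠ 0) :
    orderOf ((D : ZMod p) * q ^ k) = orderOf ((D : ZMod p) ^ u * q) := by
  have hD' : (D : ZMod p) ≠ 0 := by rwa [Ne, ZMod.intCast_zmod_eq_zero_iff_dvd]
  have h1 : ((D : ZMod p) ^ u * q) ^ k = (D : ZMod p) * q ^ k := by
    rw [mul_pow, ← pow_mul, mul_comm u k, hut, pow_add, pow_one, pow_mul,
      ZMod.pow_card_sub_one_eq_one hD', one_pow, mul_one]
  rw [← h1]
  apply Nat.Coprime.orderOf_pow
  have h2 : orderOf ((D : ZMod p) ^ u * q) ∣ p - 1 :=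
    ZMod.orderOf_dvd_card_sub_one (mul_ne_zero (pow_ne_zero _ hD') hq)
  exact (hk.coprime_dvd_right h2).symm

end

end Pool.Agent.H74R5
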