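import Mathlib
import Pool.Agent.H74R5.Pow

set_option autoImplicit false

/-! # The counting problems for `D a ^ k` and the primes `p` with `gcd(p - 1, r) = 1` -/

namespace Pool.Agent.H74R5

open Finset Filter Topology
open Pool.Agent.H386R2.Artin (PP Good hL gL LC_pos gL_nonneg gL_le_one)
open Pool.Agent.H730R2.AA (rho)
open Pool.Agent.H730R2.AB (gL_rho)
open Pool.Agent.H771R4.SE

/-- every odd prime factor of `k` divides `r` -/
def Adapted (r k : ℕ) : Prop := ∀ l : ℕ, l.Prime → l ∣ k → l ≠ 2 → l ∣ r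

lemma adapted_cop {r k m : ℕ} (h : Adapted r k) (hm : Nat.Coprime m r) (K : ℕ) (hK : K ∣ m)
    (hodd : Odd K) : Nat.Coprime k K := by
  rw [Nat.coprime_iff_gcd_eq_one]
  by_contra hne
  obtain ⟨l, hl, hlg⟩ := Nat.exists_prime_and_dvd hne
  have h1 : l ∣ k := hlg.trans (Nat.gcd_dvd_left _ _)
  have h2 : l ∣ K := hlg.trans (Nat.gcd_dvd_right _ _)
  have h3 : l ≠ 2 := by
    rintro rfl
    rw [Nat.odd_iff] at hodd
    omega
  have h4 : l ∣ Nat.gcd m r := Nat.dvd_gcd (h2.trans hK) (h l hl h1 h3)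
  rw [hm.gcd_eq_one] at h4
  exact hl.one_lt.ne' (Nat.dvd_one.1 h4)

/-- the local density, `s = 1` for even exponents and `s = 0` for odd exponents -/
noncomputable def GG (D : ℤ) (s : ℝ) (r p : ℕ) : ℝ :=
  if p ∈ Pool.Agent.H730R2.AA.PR D p ∧ Nat.Coprime (p - 1) r then
    rho p * (1 - s * (jacobiSym D p : ℝ)) else 0

lemma GG_nn (D : ℤ) (s : ℝ) (hs0 : 0 ≤ s) (hs1 : s ≤ 1) (r p : ℕ) : 0 ≤ GG D s r p := by
  unfold GG
  split_ifs
  · apply mul_nonneg (rho_nn p)
    have h2 : (jacobiSym D p : ℝ) ≤ 1 := by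
      rcases jacobiSym.trichotomy D p with h | h | h <;> rw [h] <;> norm_num
    nlinarith
  · exact le_rfl

lemma GG_le (D : ℤ) (s : ℝ) (hs0 : 0 ≤ s) (hs1 : s ≤ 1) (r p : ℕ) : GG D s r p ≤ 2 := by
  unfold GG
  split_ifs
  · have h3 := rho_le p
    have h4 := rho_nn p
    have h2 : -1 ≤ (jacobiSym D p : ℝ) := by
      rcases jacobiSym.trichotomy D p with h | h | h <;> rw [h] <;> norm_num
    have h2' : (jacobiSym D p : ℝ) ≤ 1 := by
      rcases jacobiSym.trichotomy D p with h | h | h <;> rw [h] <;> norm_num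
    have h5 : 1 - s * (jacobiSym D p : ℝ) ≤ 2 := by nlinarith
    have h6 : 0 ≤ 1 - s * (jacobiSym D p : ℝ) := by nlinarith
    calc rho p * (1 - s * (jacobiSym D p : ℝ)) ≤ 1 * 2 := by gcongr
      _ = 2 := by norm_num
  · norm_num

lemma GG_lim (D : ℤ) (hD : Squarefree D) (h4 : D % 4 ≠ 1) (s : ℝ) (hs0 : 0 ≤ s) (hs1 : s ≤ 1)
    (r : ℕ) (hr : Squarefree r) (hro : Odd r) :
    Tendsto (fun x : ℕ => (∑ p ∈ PP x, GG D s r p) / (Nat.primeCounting x : ℝ)) atTop
      (𝓝 (cst r)) := by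
  have h := mainR_lim D hD h4 s (by rw [abs_le]; constructor <;> linarith) r hr hro
  refine h.congr fun x => ?_
  congr 1
  unfold mainR PP GG
  rw [← Finset.sum_filter]
  apply Finset.sum_congr _ (fun _ _ => rfl)
  ext p
  unfold Pool.Agent.H730R2.AA.PR
  simp only [mem_filter, mem_range]
  constructor
  · rintro ⟨⟨h1, h2, h3, h4⟩, h5⟩
    exact ⟨⟨h1, h2⟩, ⟨by omega, h2, h3, h4⟩, h5⟩
  · rintro ⟨⟨h1, h2⟩, ⟨_, _, h3, h4⟩, h5⟩
    exact ⟨⟨h1, h2, h3, h4⟩, h5⟩

/-- even exponents -/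
noncomputable def dEven (D : ℤ) (hD : Squarefree D) (h4 : D % 4 ≠ 1) (r : ℕ) (hr : Squarefree r)
    (hro : Odd r) (k : ℕ) (hk0 : 0 < k) (hk2 : 2 ∣ k) (hk : Adapted r k) : Dat where
  Q := fun p a => Nat.Coprime (p - 1) r ∧ orderOf ((D : ZMod p) * a ^ k) = p - 1
  G := GG D 1 r
  A := cst r
  p0 := D.natAbs + 3
  G0 := GG_nn D 1 zero_le_one le_rfl r
  G1 := GG_le D 1 zero_le_one le_rfl r
  loc := by
    classical
    intro p hp hp0 E M L hL2 hE hM hG
    have : Fact p.Prime := ⟨hp⟩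
    have hpD : ¬ (p : ℤ) ∣ D := not_dvd_of_lt hD.ne_zero (by omega)
    have hp2 : p ≠ 2 := by omega
    have hD' : (D : ZMod p) ≠ 0 := by rwa [Ne, ZMod.intCast_zmod_eq_zero_iff_dvd]
    have hPR : p ∈ Pool.Agent.H730R2.AA.PR D p := by
      unfold Pool.Agent.H730R2.AA.PR
      rw [mem_filter, mem_range]
      exact ⟨by omega, hp, hp2, hpD⟩
    by_cases hcop : Nat.Coprime (p - 1) r
    swap
    · have e2 : ((#(E.filter (fun q : ℕ => Nat.Coprime (p - 1) r ∧
          orderOf ((D : ZMod p) * ((q : ℕ) : ZMod p) ^ k) = p - 1)) : ℕ) : ℝ) = 0 := by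
        rw [filter_eq_empty_iff.2 (fun q _ hcon => hcop hcon.1)]
        simp
      unfold GG
      rw [if_neg (fun h => hcop h.2), mul_zero, sub_zero]
      refine le_trans (le_of_eq ?_) (err_nn p E M L hM)
      rw [abs_eq_zero]
      refine Eq.trans ?_ e2
      congr!
    have hjl : jacobiSym D p = legendreSym p D := (jacobiSym.legendreSym.to_jacobiSym p D).symm
    have hGG : GG D 1 r p = rho p * (1 - (legendreSym p D : ℝ)) := by
      unfold GG
      rw [if_pos ⟨hPR, hcop⟩, one_mul, hjl]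
    rw [hGG]
    have hpd : (p - 1) / 2 = p / 2 := by
      have := hp.eq_two_or_odd
      omega
    have hc : 2 * ((p - 1) / 2) = p - 1 := by
      have := hp.eq_two_or_odd
      omega
    have hpow : ∀ b : ZMod p, b ≠ 0 → (b ^ k) ^ ((p - 1) / 2) = 1 := by
      intro b hb
      obtain ⟨i, rfl⟩ := hk2
      rw [mul_comm 2 i, pow_mul, ← pow_mul, hc]
      exact ZMod.pow_card_sub_one_eq_one (pow_ne_zero _ hb)
    rcases legendreSym.eq_one_or_neg_one p hD' with h | h
    · -- quadratic residue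
      have h1 : (D : ZMod p) ^ (p / 2) = 1 := by
        have := legendreSym.eq_pow p D
        rw [h] at this
        rw [← this]
        push_cast; rfl
      have hempty : (E.filter (fun q : ℕ => Nat.Coprime (p - 1) r ∧
          orderOf ((D : ZMod p) * ((q : ℕ) : ZMod p) ^ k) = p - 1)) = ∅ := by
        rw [filter_eq_empty_iff]
        rintro q hq ⟨_, hcon⟩
        have h2 : ((D : ZMod p) * ((q : ℕ) : ZMod p) ^ k) ^ ((p - 1) / 2) = 1 := by
          rw [mul_pow, hpow _ (hE q hq), mul_one, hpd]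
          exact h1
        have h3 := orderOf_dvd_of_pow_eq_one h2
        rw [hcon] at h3
        have h4 : 0 < (p - 1) / 2 := by omega
        have h5 := Nat.le_of_dvd h4 h3
        omega
      have e1 : (1 : ℝ) - ((legendreSym p D : ℤ) : ℝ) = 0 := by rw [h]; push_cast; norm_num
      rw [e1, mul_zero, mul_zero, sub_zero]
      have e2 : ((#(E.filter (fun q : ℕ => Nat.Coprime (p - 1) r ∧
          orderOf ((D : ZMod p) * ((q : ℕ) : ZMod p) ^ k) = p - 1)) : ℕ) : ℝ) = 0 := by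
        rw [hempty]; simp
      refine le_trans (le_of_eq ?_) (err_nn p E M L hM)
      rw [abs_eq_zero]
      refine Eq.trans ?_ e2
      congr!
    · have h1 : (D : ZMod p) ^ (p / 2) = -1 := by
        have := legendreSym.eq_pow p D
        rw [h] at this
        rw [← this]
        push_cast; rfl
      have e1 : rho p * ((1 : ℝ) - ((legendreSym p D : ℤ) : ℝ)) = 2 * rho p := by
        rw [h]; push_cast; ring
      rw [e1]
      refine loc_odd hp hp2 E M L hL2 hE hM hG
        (fun q : ℕ => (D : ZMod p) * (q : ZMod p) ^ k) (fun q hq =>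
          mul_ne_zero hD' (pow_ne_zero _ (hE q hq)))
        (lin_pow D hpD k hk0 (fun K hK hKo => adapted_cop hk hcop K hK hKo)) _ (fun q => ?_)
      refine (@Finset.mem_filter _ _ (fun _ => Classical.propDecidable _) _ _).trans ?_
      apply and_congr_right
      intro hq
      rw [and_iff_right hcop]
      apply prim_iff_oddP hp2
      rw [mul_pow, ← hpd, hpow _ (hE q hq), mul_one, hpd]
      exact h1
  lim := GG_lim D hD h4 1 zero_le_one le_rfl r hr hro

/-- odd exponents -/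
noncomputable def dOdd (D : ℤ) (hD : Squarefree D) (h4 : D % 4 ≠ 1) (r : ℕ) (hr : Squarefree r)
    (hro : Odd r) (k : ℕ) (hk2 : Odd k) (hk : Adapted r k) : Dat where
  Q := fun p a => Nat.Coprime (p - 1) r ∧ orderOf ((D : ZMod p) * a ^ k) = p - 1
  G := GG D 0 r
  A := cst r
  p0 := D.natAbs + 3
  G0 := GG_nn D 0 le_rfl zero_le_one r
  G1 := GG_le D 0 le_rfl zero_le_one r
  loc := by
    classical
    intro p hp hp0 E M L hL2 hE hM hG
    have : Fact p.Prime := ⟨hp⟩
    have hpD : ¬ (p : ℤ) ∣ D := not_dvd_of_lt hD.ne_zero (by omega)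
    have hp2 : p ≠ 2 := by omega
    have hp1 : 0 < p - 1 := by omega
    have hD' : (D : ZMod p) ≠ 0 := by rwa [Ne, ZMod.intCast_zmod_eq_zero_iff_dvd]
    have hPR : p ∈ Pool.Agent.H730R2.AA.PR D p := by
      unfold Pool.Agent.H730R2.AA.PR
      rw [mem_filter, mem_range]
      exact ⟨by omega, hp, hp2, hpD⟩
    by_cases hcop : Nat.Coprime (p - 1) r
    swap
    · have e2 : ((#(E.filter (fun q : ℕ => Nat.Coprime (p - 1) r ∧
          orderOf ((D : ZMod p) * ((q : ℕ) : ZMod p) ^ k) = p - 1)) : ℕ) : ℝ) = 0 := by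
        rw [filter_eq_empty_iff.2 (fun q _ hcon => hcop hcon.1)]
        simp
      unfold GG
      rw [if_neg (fun h => hcop h.2), mul_zero, sub_zero]
      refine le_trans (le_of_eq ?_) (err_nn p E M L hM)
      rw [abs_eq_zero]
      refine Eq.trans ?_ e2
      congr!
    have hGG : GG D 0 r p = rho p := by
      unfold GG
      rw [if_pos ⟨hPR, hcop⟩, zero_mul, sub_zero, mul_one]
    rw [hGG]
    have hkp : Nat.Coprime k (p - 1) := by
      rw [Nat.coprime_iff_gcd_eq_one]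
      by_contra hne
      obtain ⟨l, hl, hlg⟩ := Nat.exists_prime_and_dvd hne
      have h1 : l ∣ k := hlg.trans (Nat.gcd_dvd_left _ _)
      have h2 : l ∣ p - 1 := hlg.trans (Nat.gcd_dvd_right _ _)
      have h3 : l ≠ 2 := by
        rintro rfl
        rw [Nat.odd_iff] at hk2
        omega
      have h5 : l ∣ Nat.gcd (p - 1) r := Nat.dvd_gcd h2 (hk l hl h1 h3)
      rw [hcop.gcd_eq_one] at h5
      exact hl.one_lt.ne' (Nat.dvd_one.1 h5)
    obtain ⟨u, t, hut⟩ := exists_inv k (p - 1) hk2.pos hp1 hkp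
    have hpDu : ¬ (p : ℤ) ∣ D ^ u := by
      rw [← ZMod.intCast_zmod_eq_zero_iff_dvd]
      push_cast
      exact pow_ne_zero _ hD'
    have h := LC_mainI E M (D ^ u) hE hM hG hpDu L
    have h2 : (E.filter (fun q : ℕ => orderOf ((D ^ u * (q : ℤ) : ℤ) : ZMod p) = p - 1)) =
        (E.filter (fun q : ℕ => Nat.Coprime (p - 1) r ∧
          orderOf ((D : ZMod p) * ((q : ℕ) : ZMod p) ^ k) = p - 1)) := by
      apply filter_congr
      intro q hq
      rw [and_iff_right hcop, order_pow D hpD k hkp u t hut _ (hE q hq)]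
      push_cast
      rfl
    rw [h2] at h
    obtain ⟨c1, c2⟩ := gL_rho (p := p) L
    have hE0 : (0 : ℝ) ≤ #E := Nat.cast_nonneg _
    have c3 : (#E : ℝ) * (gL L (p - 1) - rho p) ≤ #E * hL L (p - 1) :=
      mul_le_mul_of_nonneg_left c2 hE0
    have c4 : 0 ≤ (#E : ℝ) * (gL L (p - 1) - rho p) := mul_nonneg hE0 c1
    have c5 : 0 ≤ (#E : ℝ) * hL L (p - 1) := mul_nonneg hE0 (hL_nn L p)
    suffices key : |((#(E.filter (fun q : ℕ => Nat.Coprime (p - 1) r ∧
        orderOf ((D : ZMod p) * ((q : ℕ) : ZMod p) ^ k) = p - 1)) : ℕ) : ℝ) - #E * rho p| ≤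
        1 + 2 ^ L * M + 3 * (#E * hL L (p - 1)) + (p - 1).primeFactors.card * M by
      refine le_trans (le_of_eq ?_) key
      congr!
    rw [abs_le] at h ⊢
    constructor
    · linarith [h.1]
    · linarith [h.2]
  lim := GG_lim D hD h4 0 le_rfl zero_le_one r hr hro

end Pool.Agent.H74R5
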