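import Mathlib
import Pool.Agent.H74R5.DatumK

set_option autoImplicit false

/-! # Primes `p ≡ 3 mod 4` with `gcd(p - 1, r) = 1` at which `D a ^ k` has order `p - 1` or
`(p - 1) / 2` -/

namespace Pool.Agent.H74R5

open Finset Filter Topology
open Pool.Agent.H386R2.Artin (PP Good hL gL LC_pos gL_nonneg gL_le_one)
open Pool.Agent.H730R2.AA (rho)
open Pool.Agent.H771R4.AQ (Adm)
open Pool.Agent.H771R4.SE

lemma sqf_neg_one : Squarefree (-1 : ℤ) := by
  rw [← Int.squarefree_natAbs]
  simp

/-- all exponents `k ≥ 1` whose odd prime factors divide `r` -/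
noncomputable def dAdmK (D : ℤ) (hD : D ≠ 0) (r : ℕ) (hr : Squarefree r)
    (hro : Odd r) (k : ℕ) (hk0 : 0 < k) (hk : Adapted r k) : Dat where
  Q := fun p a => p % 4 = 3 ∧ Nat.Coprime (p - 1) r ∧ Adm p ((D : ZMod p) * a ^ k)
  G := GG (-1) 1 r
  A := cst r
  p0 := D.natAbs + 3
  G0 := GG_nn (-1) 1 zero_le_one le_rfl r
  G1 := GG_le (-1) 1 zero_le_one le_rfl r
  loc := by
    classical
    intro p hp hp0 E M L hL2 hE hM hG
    have : Fact p.Prime := ⟨hp⟩
    have hpD : ¬ (p : ℤ) ∣ D := not_dvd_of_lt hD (by omega)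
    have hp2 : p ≠ 2 := by omega
    have hD' : (D : ZMod p) ≠ 0 := by rwa [Ne, ZMod.intCast_zmod_eq_zero_iff_dvd]
    have hodd : Odd p := hp.odd_of_ne_two hp2
    have hPR : p ∈ Pool.Agent.H730R2.AA.PR (-1) p := by
      unfold Pool.Agent.H730R2.AA.PR
      rw [mem_filter, mem_range]
      refine ⟨by omega, hp, hp2, fun h => ?_⟩
      have h1 : (p : ℤ) ∣ 1 := by
        rw [← dvd_neg]
        exact h
      have h2 := Int.le_of_dvd one_pos h1
      omega
    by_cases hcop : Nat.Coprime (p - 1) r ∧ p % 4 = 3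
    · obtain ⟨hcop, h43⟩ := hcop
      have hJ : jacobiSym (-1) p = -1 := by
        rw [jacobiSym.at_neg_one hodd]
        exact ZMod.χ₄_nat_three_mod_four h43
      have hGG : GG (-1) 1 r p = 2 * rho p := by
        unfold GG
        rw [if_pos ⟨hPR, hcop⟩, hJ]
        push_cast
        ring
      rw [hGG]
      refine loc_odd hp hp2 E M L hL2 hE hM hG
        (fun q : ℕ => (D : ZMod p) * (q : ZMod p) ^ k) (fun q hq =>
          mul_ne_zero hD' (pow_ne_zero _ (hE q hq)))
        (lin_pow D hpD k hk0 (fun K hK hKo => adapted_cop hk hcop K hK hKo)) _ (fun q => ?_)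
      refine (@Finset.mem_filter _ _ (fun _ => Classical.propDecidable _) _ _).trans ?_
      apply and_congr_right
      intro hq
      rw [and_iff_right h43, and_iff_right hcop, adm_iff_oddP h43]
    · have e2 : ((#(E.filter (fun q : ℕ => p % 4 = 3 ∧ Nat.Coprime (p - 1) r ∧
          Adm p ((D : ZMod p) * ((q : ℕ) : ZMod p) ^ k))) : ℕ) : ℝ) = 0 := by
        rw [filter_eq_empty_iff.2 (fun q _ hcon => hcop ⟨hcon.2.1, hcon.1⟩)]
        simp
      have hGG : GG (-1) 1 r p = 0 := by
        unfold GG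
        by_cases hc : Nat.Coprime (p - 1) r
        · have h41 : p % 4 = 1 := by
            have h1 : p % 4 ≠ 3 := fun h => hcop ⟨hc, h⟩
            have h2 := Nat.odd_iff.1 hodd
            omega
          rw [if_pos ⟨hPR, hc⟩, jacobiSym.at_neg_one hodd, ZMod.χ₄_nat_one_mod_four h41]
          push_cast
          ring
        · rw [if_neg (fun h => hc h.2)]
      rw [hGG, mul_zero, sub_zero]
      refine le_trans (le_of_eq ?_) (err_nn p E M L hM)
      rw [abs_eq_zero]
      refine Eq.trans ?_ e2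
      congr!
  lim := GG_lim (-1) sqf_neg_one (by norm_num) 1 zero_le_one le_rfl r hr hro

end Pool.Agent.H74R5
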