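import Mathlib
import Pool.Agent.H74R5.MainR

set_option autoImplicit false

/-! # The main term for the primes `p` with `gcd(p - 1, r) = 1`, squarefree part `D ≡ 1 mod 4`:
the correction factor -/

namespace Pool.Agent.H74R5

open Finset Filter Topology ArithmeticFunction
open Pool.Agent.H730R2.AA (PR Wd om mainT rho main_eq Wd_bound Wd_lim)
open Pool.Agent.H730R2.AA.Euler (hh gg uu gg_euler gg_le hh_summable hh_not_sqf hh_mul hh_eq_prod
  mu_eq_prod ratio gg_summable)

/-- the sum over the multiples of `N` coprime to `r` -/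
theorem sum_multG (N r : ℕ) (hN0 : N ≠ 0) (hNr : Nat.Coprime N r) :
    (∑' d, if N ∣ d then gg r d else 0) = hh N * ∑' d, gg (N * r) d := by
  rw [← tsum_mul_left]
  have hinj : Function.Injective (fun e : ℕ => N * e) := fun a b h =>
    Nat.eq_of_mul_eq_mul_left (Nat.pos_of_ne_zero hN0) h
  rw [← hinj.tsum_eq (f := fun d => if N ∣ d then gg r d else 0)]
  · apply tsum_congr
    intro e
    rw [if_pos (dvd_mul_right N e)]
    unfold gg
    have h1 : Nat.Coprime r (N * e) ↔ Nat.Coprime r e := by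
      rw [Nat.coprime_mul_iff_right]
      exact ⟨fun h => h.2, fun h => ⟨hNr.symm, h⟩⟩
    have h2 : Nat.Coprime (N * r) e ↔ Nat.Coprime N e ∧ Nat.Coprime r e :=
      Nat.coprime_mul_iff_left
    by_cases hr : Nat.Coprime r e
    · rw [if_pos (h1.2 hr)]
      by_cases h : Nat.Coprime N e
      · rw [if_pos (h2.2 ⟨h, hr⟩), hh_mul h]
      · rw [if_neg (fun h' => h (h2.1 h').1), mul_zero, hh_not_sqf]
        intro hs
        exact h (Nat.coprime_of_squarefree_mul hs)
    · rw [if_neg (fun h' => hr (h1.1 h')), if_neg (fun h' => hr (h2.1 h').2), mul_zero]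
  · intro d hd
    rw [Function.mem_support] at hd
    by_cases h : N ∣ d
    · obtain ⟨e, rfl⟩ := h
      exact ⟨e, rfl⟩
    · rw [if_neg h] at hd
      exact absurd rfl hd

/-- splitting off the primes dividing `N` -/
theorem splitG (N r : ℕ) (hN : N ≠ 0) (hNr : Nat.Coprime N r) :
    (∑' d, gg r d) = (∏ q ∈ N.primeFactors, (1 - uu q)) * ∑' d, gg (N * r) d := by
  have h1 := gg_euler (N * r)
  have h2 : HasProd (fun p : Nat.Primes => if (p : ℕ) ∣ N then 1 - uu p else (1 : ℝ))
      (∏ p ∈ (N.primeFactors.subtype Nat.Prime : Finset Nat.Primes),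
        (if (p : ℕ) ∣ N then 1 - uu p else (1 : ℝ))) := by
    apply hasProd_prod_of_ne_finset_one
    intro p hp
    rw [if_neg]
    intro hd
    exact hp (Finset.mem_subtype.mpr (Nat.mem_primeFactors.mpr ⟨p.2, hd, hN⟩))
  have h3 := h2.mul h1
  have h4 : (fun p : Nat.Primes => (if (p : ℕ) ∣ N then 1 - uu p else (1 : ℝ))
      * (if (p : ℕ) ∣ N * r then (1 : ℝ) else 1 - uu p)) =
      fun p : Nat.Primes => if (p : ℕ) ∣ r then (1 : ℝ) else 1 - uu p := by
    funext p
    have hdm : (p : ℕ) ∣ N * r ↔ (p : ℕ) ∣ N ∨ (p : ℕ) ∣ r := Nat.Prime.dvd_mul p.2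
    by_cases hd : (p : ℕ) ∣ N
    · have hr : ¬ (p : ℕ) ∣ r := by
        intro hr
        have h5 := Nat.dvd_gcd hd hr
        rw [hNr.gcd_eq_one] at h5
        exact p.2.one_lt.ne' (Nat.dvd_one.1 h5)
      rw [if_pos hd, if_pos (hdm.2 (Or.inl hd)), if_neg hr, mul_one]
    · by_cases hr : (p : ℕ) ∣ r
      · rw [if_neg hd, if_pos (hdm.2 (Or.inr hr)), if_pos hr, mul_one]
      · rw [if_neg hd, if_neg (fun h => (hdm.1 h).elim hd hr), if_neg hr, one_mul]
  rw [h4] at h3
  rw [(gg_euler r).unique h3]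
  congr 1
  have h5 := Finset.prod_subtype_eq_prod_filter (s := N.primeFactors) (p := Nat.Prime)
    (f := fun l : ℕ => if l ∣ N then 1 - uu l else (1 : ℝ))
  refine h5.trans ?_
  rw [Finset.filter_true_of_mem (fun q hq => Nat.prime_of_mem_primeFactors hq)]
  apply Finset.prod_congr rfl
  intro q hq
  rw [if_pos (Nat.dvd_of_mem_primeFactors hq)]

/-- `∑_{e ∣ s t, s ∣ e} μ(e) / φ(e)` -/
lemma kappa_mult (s t : ℕ) (hst : Squarefree (s * t)) :
    ∑ e ∈ (s * t).divisors, (if s ∣ e then ((moebius e : ℤ) : ℝ) * (1 / (Nat.totient e : ℝ))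
      else 0) = (((moebius s : ℤ) : ℝ) * (1 / (Nat.totient s : ℝ))) *
        ∏ l ∈ t.primeFactors, (1 - 1 / ((l : ℝ) - 1)) := by
  have hst0 : s * t ≠ 0 := hst.ne_zero
  have hs0 : s ≠ 0 := left_ne_zero_of_mul hst0
  have ht0 : t ≠ 0 := right_ne_zero_of_mul hst0
  have hc : Nat.Coprime s t := Nat.coprime_of_squarefree_mul hst
  have ht : Squarefree t := hst.squarefree_of_dvd (Dvd.intro_left s rfl)
  rw [← kappa_eq t ht, Finset.mul_sum, ← Finset.sum_filter]
  symm
  apply Finset.sum_nbij' (fun f => s * f) (fun e => e / s)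
  · intro f hf
    rw [Nat.mem_divisors] at hf
    rw [Finset.mem_filter, Nat.mem_divisors]
    exact ⟨⟨Nat.mul_dvd_mul_left s hf.1, hst0⟩, Dvd.intro f rfl⟩
  · intro e he
    rw [Finset.mem_filter, Nat.mem_divisors] at he
    obtain ⟨⟨h1, _⟩, h2⟩ := he
    obtain ⟨f, rfl⟩ := h2
    rw [Nat.mem_divisors, Nat.mul_div_cancel_left _ (Nat.pos_of_ne_zero hs0)]
    exact ⟨Nat.dvd_of_mul_dvd_mul_left (Nat.pos_of_ne_zero hs0) h1, ht0⟩
  · intro f _
    exact Nat.mul_div_cancel_left _ (Nat.pos_of_ne_zero hs0)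
  · intro e he
    rw [Finset.mem_filter] at he
    exact Nat.mul_div_cancel' he.2
  · intro f hf
    rw [Nat.mem_divisors] at hf
    have hcf : Nat.Coprime s f := hc.coprime_dvd_right hf.1
    rw [isMultiplicative_moebius.map_mul_of_coprime hcf, Nat.totient_mul hcf]
    push_cast
    rw [mul_mul_mul_comm, div_mul_div_comm, mul_one]

/-- the multiplicative function in the correction factor -/
noncomputable def cf (r q : ℕ) : ℝ :=
  if q ∣ r then 1 / ((q : ℝ) - 2) else 1 / ((q : ℝ) ^ 2 - (q : ℝ) - 1)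

/-- the density with its correction factor -/
noncomputable def cstD (D : ℤ) (r : ℕ) : ℝ :=
  (1 - ((moebius D.natAbs : ℤ) : ℝ) * ∏ q ∈ D.natAbs.primeFactors, cf r q) * cst r

/-- the limit of `Vs / π` -/
lemma limV (n r d : ℕ) (hn : Squarefree n) (hr : Squarefree r) (hro : Odd r)
    (hdr : Nat.Coprime d r) :
    ∑ e ∈ r.divisors, ((moebius e : ℤ) : ℝ) * ((1 + (if 2 * n ∣ d * e then 1 else 0)) /
      (Nat.totient (d * e) : ℝ)) =
    (1 / (Nat.totient d : ℝ)) * (∏ l ∈ r.primeFactors, (1 - 1 / ((l : ℝ) - 1))) +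
      (if 2 * (n / Nat.gcd n r) ∣ d then (1 / (Nat.totient d : ℝ)) *
        ((((moebius (Nat.gcd n r) : ℤ) : ℝ) * (1 / (Nat.totient (Nat.gcd n r) : ℝ))) *
          ∏ l ∈ (r / Nat.gcd n r).primeFactors, (1 - 1 / ((l : ℝ) - 1))) else 0) := by
  have hn0 : n ≠ 0 := hn.ne_zero
  have hr0 : r ≠ 0 := hr.ne_zero
  obtain ⟨g, hg⟩ : ∃ g, g = Nat.gcd n r := ⟨_, rfl⟩
  rw [← hg]
  have hgn : g ∣ n := hg ▸ Nat.gcd_dvd_left n r
  have hgr : g ∣ r := hg ▸ Nat.gcd_dvd_right n r
  have hg0 : g ≠ 0 := fun h => hn0 (Nat.eq_zero_of_zero_dvd (h ▸ hgn))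
  obtain ⟨n', hn'⟩ := hgn
  obtain ⟨t, ht⟩ := hgr
  have e1 : n / g = n' := by rw [hn', Nat.mul_div_cancel_left _ (Nat.pos_of_ne_zero hg0)]
  have e2 : r / g = t := by rw [ht, Nat.mul_div_cancel_left _ (Nat.pos_of_ne_zero hg0)]
  rw [e1, e2]
  have hgn' : Nat.Coprime g n' := Nat.coprime_of_squarefree_mul (hn' ▸ hn)
  have hgt : Nat.Coprime g t := Nat.coprime_of_squarefree_mul (ht ▸ hr)
  have hn't : Nat.Coprime n' t := by
    have h1 : Nat.gcd (g * n') (g * t) = g := by rw [← hn', ← ht]; exact hg.symm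
    rw [Nat.gcd_mul_left] at h1
    have h2 : Nat.gcd n' t = 1 := by
      have : g * Nat.gcd n' t = g * 1 := by rw [h1, mul_one]
      exact Nat.eq_of_mul_eq_mul_left (Nat.pos_of_ne_zero hg0) this
    exact h2
  have hn'r : Nat.Coprime n' r := by
    rw [ht]
    exact Nat.Coprime.mul_right hgn'.symm hn't
  have h2r : Nat.Coprime 2 r := Nat.coprime_two_left.2 hro
  have hdiv : ∀ e, e ∣ r → (2 * n ∣ d * e ↔ (2 * n' ∣ d ∧ g ∣ e)) := by
    intro e he
    have hde : Nat.Coprime d e := hdr.coprime_dvd_right he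
    constructor
    · intro h
      constructor
      · have h3 : 2 * n' ∣ d * e := by
          refine Dvd.dvd.trans ?_ h
          rw [hn']
          exact ⟨g, by ring⟩
        have h4 : Nat.Coprime (2 * n') e :=
          Nat.Coprime.mul_left (h2r.coprime_dvd_right he) (hn'r.coprime_dvd_right he)
        exact h4.dvd_of_dvd_mul_right h3
      · have h3 : g ∣ d * e := by
          refine Dvd.dvd.trans ?_ h
          rw [hn']
          exact ⟨2 * n', by ring⟩
        have h4 : Nat.Coprime g d := by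
          refine (hdr.coprime_dvd_right ?_).symm
          rw [ht]
          exact Dvd.intro t rfl
        exact h4.dvd_of_dvd_mul_left h3
    · rintro ⟨h3, h4⟩
      have h5 : 2 * n = (2 * n') * g := by rw [hn']; ring
      rw [h5]
      exact Nat.mul_dvd_mul h3 h4
  have h1 : ∀ e ∈ r.divisors, ((moebius e : ℤ) : ℝ) * ((1 + (if 2 * n ∣ d * e then 1 else 0)) /
      (Nat.totient (d * e) : ℝ)) = (1 / (Nat.totient d : ℝ)) *
        (((moebius e : ℤ) : ℝ) * (1 / (Nat.totient e : ℝ))) +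
      (if 2 * n' ∣ d then (1 / (Nat.totient d : ℝ)) * (if g ∣ e then
        ((moebius e : ℤ) : ℝ) * (1 / (Nat.totient e : ℝ)) else 0) else 0) := by
    intro e he
    have her := (Nat.mem_divisors.1 he).1
    have hde : Nat.Coprime d e := hdr.coprime_dvd_right her
    rw [Nat.totient_mul hde]
    have hd1 := hdiv e her
    have e3 : ((1 : ℝ) / (Nat.totient d : ℝ)) * (1 / (Nat.totient e : ℝ)) =
        1 / ((Nat.totient d * Nat.totient e : ℕ) : ℝ) := by
      push_cast
      rw [div_mul_div_comm, mul_one]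
    by_cases h2 : 2 * n' ∣ d
    · by_cases h3 : g ∣ e
      · rw [if_pos (hd1.2 ⟨h2, h3⟩), if_pos h2, if_pos h3]
        rw [show ((1 : ℝ) + 1) / ((Nat.totient d * Nat.totient e : ℕ) : ℝ) =
          2 * (1 / ((Nat.totient d * Nat.totient e : ℕ) : ℝ)) by ring, ← e3]
        ring
      · rw [if_neg (fun h => h3 (hd1.1 h).2), if_pos h2, if_neg h3, add_zero, ← e3]
        ring
    · rw [if_neg (fun h => h2 (hd1.1 h).1), if_neg h2, add_zero, ← e3]
      ring
  rw [Finset.sum_congr rfl h1, Finset.sum_add_distrib, ← Finset.mul_sum, kappa_eq r hr]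
  congr 1
  by_cases h2 : 2 * n' ∣ d
  · simp only [if_pos h2]
    rw [← Finset.mul_sum]
    have h3 := kappa_mult g t (ht ▸ hr)
    rw [← ht] at h3
    rw [h3]
  · simp only [if_neg h2]
    rw [Finset.sum_const_zero]

lemma mufun_prod (g : ℕ) (hg : Squarefree g) :
    ((moebius g : ℤ) : ℝ) * (1 / (Nat.totient g : ℝ)) =
      ∏ l ∈ g.primeFactors, (-(1 / ((l : ℝ) - 1))) := by
  have h := Pool.Agent.H730R2.AA.Euler.mult_prod
    (fun n => ((moebius n : ℤ) : ℝ) * (1 / (Nat.totient n : ℝ))) (by simp) (fun m n h => by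
      rw [isMultiplicative_moebius.map_mul_of_coprime h, Nat.totient_mul h]
      push_cast
      rw [mul_mul_mul_comm, div_mul_div_comm, mul_one]) g.primeFactors
    (fun p hp => Nat.prime_of_mem_primeFactors hp)
  rw [Nat.prod_primeFactors_of_squarefree hg] at h
  rw [h]
  refine Finset.prod_congr rfl fun q hq => ?_
  have hqp := Nat.prime_of_mem_primeFactors hq
  rw [moebius_apply_prime hqp, Nat.totient_prime hqp, Nat.cast_sub hqp.one_le]
  push_cast
  ring

lemma odd_prime_ge {q m : ℕ} (hm : Odd m) (hq : q.Prime) (h : q ∣ m) : (3 : ℝ) ≤ q := by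
  have h1 := hq.two_le
  have h3 : 3 ≤ q := by
    rcases Nat.eq_or_lt_of_le h1 with h2 | h2
    · subst h2
      rw [Nat.odd_iff] at hm
      omega
    · exact h2
  exact_mod_cast h3

/-- the final identity -/
lemma final_id (n r : ℕ) (hn : Squarefree n) (hno : Odd n) (hr : Squarefree r) (hro : Odd r) :
    (∏ l ∈ r.primeFactors, (1 - 1 / ((l : ℝ) - 1))) * (∑' d, gg r d) +
      ((((moebius (Nat.gcd n r) : ℤ) : ℝ) * (1 / (Nat.totient (Nat.gcd n r) : ℝ))) *
          ∏ l ∈ (r / Nat.gcd n r).primeFactors, (1 - 1 / ((l : ℝ) - 1))) *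
        (hh (2 * (n / Nat.gcd n r)) * ∑' d, gg (2 * (n / Nat.gcd n r) * r) d) =
    (1 - ((moebius n : ℤ) : ℝ) * ∏ q ∈ n.primeFactors, cf r q) *
      ((∏ l ∈ r.primeFactors, (1 - 1 / ((l : ℝ) - 1))) * (∑' d, gg r d)) := by
  have hn0 : n ≠ 0 := hn.ne_zero
  have hr0 : r ≠ 0 := hr.ne_zero
  obtain ⟨g, hg⟩ : ∃ g, g = Nat.gcd n r := ⟨_, rfl⟩
  rw [← hg]
  have hgn : g ∣ n := hg ▸ Nat.gcd_dvd_left n r
  have hgr : g ∣ r := hg ▸ Nat.gcd_dvd_right n r
  have hg0 : g ≠ 0 := fun h => hn0 (Nat.eq_zero_of_zero_dvd (h ▸ hgn))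
  have hgs : Squarefree g := hn.squarefree_of_dvd hgn
  obtain ⟨n', hn'⟩ := hgn
  have hgr' := hgr
  obtain ⟨t, ht⟩ := hgr
  have e1 : n / g = n' := by rw [hn', Nat.mul_div_cancel_left _ (Nat.pos_of_ne_zero hg0)]
  have e2 : r / g = t := by rw [ht, Nat.mul_div_cancel_left _ (Nat.pos_of_ne_zero hg0)]
  rw [e1, e2]
  have hgn' : Nat.Coprime g n' := Nat.coprime_of_squarefree_mul (hn' ▸ hn)
  have hgt : Nat.Coprime g t := Nat.coprime_of_squarefree_mul (ht ▸ hr)
  have hn't : Nat.Coprime n' t := by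
    have h1 : Nat.gcd (g * n') (g * t) = g := by rw [← hn', ← ht]; exact hg.symm
    rw [Nat.gcd_mul_left] at h1
    have h2 : Nat.gcd n' t = 1 := by
      have : g * Nat.gcd n' t = g * 1 := by rw [h1, mul_one]
      exact Nat.eq_of_mul_eq_mul_left (Nat.pos_of_ne_zero hg0) this
    exact h2
  have hn'r : Nat.Coprime n' r := by
    rw [ht]
    exact Nat.Coprime.mul_right hgn'.symm hn't
  have h2r : Nat.Coprime 2 r := Nat.coprime_two_left.2 hro
  have hn'o : Odd n' := by
    rw [hn', Nat.odd_mul] at hno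
    exact hno.2
  have hn's : Squarefree n' := hn.squarefree_of_dvd (hn' ▸ Dvd.intro_left g rfl)
  have h2n' : Nat.Coprime 2 n' := Nat.coprime_two_left.2 hn'o
  have hNs : Squarefree (2 * n') := (Nat.squarefree_mul h2n').2 ⟨Nat.prime_two.squarefree, hn's⟩
  have hNr : Nat.Coprime (2 * n') r := Nat.Coprime.mul_left h2r hn'r
  have hS := splitG (2 * n') r hNs.ne_zero hNr
  obtain ⟨T, hT⟩ : ∃ T, T = ∑' d, gg (2 * n' * r) d := ⟨_, rfl⟩
  rw [← hT] at hS ⊢
  rw [hS]
  -- Claim A
  have hA : ((moebius g : ℤ) : ℝ) * (1 / (Nat.totient g : ℝ)) *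
      ∏ l ∈ t.primeFactors, (1 - 1 / ((l : ℝ) - 1)) =
      (∏ l ∈ r.primeFactors, (1 - 1 / ((l : ℝ) - 1))) *
        ∏ l ∈ g.primeFactors, (-(1 / ((l : ℝ) - 2))) := by
    rw [mufun_prod g hgs, ht, hgt.primeFactors_mul, Finset.prod_union hgt.disjoint_primeFactors]
    rw [mul_right_comm, ← Finset.prod_mul_distrib]
    congr 1
    apply Finset.prod_congr rfl
    intro l hl
    have hl3 := odd_prime_ge hro (Nat.prime_of_mem_primeFactors hl)
      ((Nat.dvd_of_mem_primeFactors hl).trans hgr')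
    have h5 : (l : ℝ) - 1 ≠ 0 := by linarith
    have h6 : (l : ℝ) - 2 ≠ 0 := by linarith
    field_simp
    ring
  -- Claim B
  have hB : hh (2 * n') = (∏ q ∈ (2 * n').primeFactors, (1 - uu q)) *
      (- ∏ q ∈ n'.primeFactors, (-(1 / ((q : ℝ) ^ 2 - (q : ℝ) - 1)))) := by
    rw [hh_eq_prod _ hNs]
    rw [Finset.prod_congr rfl (fun q hq => ratio (Nat.prime_of_mem_primeFactors hq)),
      Finset.prod_mul_distrib]
    congr 1
    have h3 : (2 * n').primeFactors = insert 2 n'.primeFactors := by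
      rw [Nat.Coprime.primeFactors_mul h2n', Nat.Prime.primeFactors Nat.prime_two]
      rfl
    have h4 : (2 : ℕ) ∉ n'.primeFactors := by
      intro h
      have := Nat.dvd_of_mem_primeFactors h
      exact (Nat.Prime.coprime_iff_not_dvd Nat.prime_two).mp h2n' this
    rw [h3, Finset.prod_insert h4]
    push_cast
    norm_num
  -- Claim C
  have hC : ((moebius n : ℤ) : ℝ) * ∏ q ∈ n.primeFactors, cf r q =
      (∏ l ∈ g.primeFactors, (-(1 / ((l : ℝ) - 2)))) *
        ∏ q ∈ n'.primeFactors, (-(1 / ((q : ℝ) ^ 2 - (q : ℝ) - 1))) := by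
    rw [mu_eq_prod n hn, ← Finset.prod_mul_distrib, hn', hgn'.primeFactors_mul,
      Finset.prod_union hgn'.disjoint_primeFactors]
    congr 1
    · apply Finset.prod_congr rfl
      intro q hq
      unfold cf
      rw [if_pos ((Nat.dvd_of_mem_primeFactors hq).trans hgr')]
      ring
    · apply Finset.prod_congr rfl
      intro q hq
      have hqp := Nat.prime_of_mem_primeFactors hq
      unfold cf
      rw [if_neg]
      · ring
      · intro h
        have h5 := Nat.dvd_gcd (Nat.dvd_of_mem_primeFactors hq) h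
        rw [hn'r.gcd_eq_one] at h5
        exact hqp.one_lt.ne' (Nat.dvd_one.1 h5)
  rw [hA, hB, hC]
  ring

theorem mainC_lim (D : ℤ) (hD : Squarefree D) (h4 : D % 4 = 1) (hD1 : D ≠ 1) (r : ℕ)
    (hr : Squarefree r) (hro : Odd r) :
    Tendsto (fun x : ℕ => mainR D 1 r x / (Nat.primeCounting x : ℝ)) atTop (𝓝 (cstD D r)) := by
  obtain ⟨C, hC, hb⟩ := Wd_bound 1
  have hn : Squarefree D.natAbs := Int.squarefree_natAbs.2 hD
  have hno : Odd D.natAbs := Nat.odd_iff.2 (by omega)
  obtain ⟨n, hndef⟩ : ∃ n, n = D.natAbs := ⟨_, rfl⟩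
  rw [← hndef] at hn hno
  obtain ⟨N, hN⟩ : ∃ N, N = 2 * (n / Nat.gcd n r) := ⟨_, rfl⟩
  obtain ⟨κ, hκ⟩ : ∃ κ : ℝ, κ = ∏ l ∈ r.primeFactors, (1 - 1 / ((l : ℝ) - 1)) := ⟨_, rfl⟩
  obtain ⟨κ', hκ'⟩ : ∃ κ' : ℝ, κ' = (((moebius (Nat.gcd n r) : ℤ) : ℝ) *
    (1 / (Nat.totient (Nat.gcd n r) : ℝ))) *
          ∏ l ∈ (r / Nat.gcd n r).primeFactors, (1 - 1 / ((l : ℝ) - 1)) := ⟨_, rfl⟩
  have hs1 : Summable (gg r) := (gg_summable r).of_norm
  have hs2 : Summable fun d => if N ∣ d then gg r d else 0 := by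
    apply Summable.of_norm
    refine Summable.of_nonneg_of_le (fun _ => norm_nonneg _) (fun d => ?_) (gg_summable r)
    by_cases h : N ∣ d
    · rw [if_pos h]
    · rw [if_neg h, norm_zero]; exact norm_nonneg _
  have hA : cstD D r = ∑' d : ℕ, (κ * gg r d + κ' * (if N ∣ d then gg r d else 0)) := by
    rw [(hs1.mul_left κ).tsum_add (hs2.mul_left κ'), tsum_mul_left, tsum_mul_left]
    have hn0 : n ≠ 0 := hn.ne_zero
    have hgn : Nat.gcd n r ∣ n := Nat.gcd_dvd_left n r
    have hg0 : 0 < Nat.gcd n r := Nat.gcd_pos_of_pos_left _ (Nat.pos_of_ne_zero hn0)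
    have hcop : Nat.Coprime (n / Nat.gcd n r) r := by
      have h1 : Nat.Coprime (n / Nat.gcd n r) (r / Nat.gcd n r) := Nat.coprime_div_gcd_div_gcd hg0
      have h2 : Nat.gcd n r * (n / Nat.gcd n r) = n := Nat.mul_div_cancel' hgn
      have h3 : Nat.Coprime (Nat.gcd n r) (n / Nat.gcd n r) := by
        apply Nat.coprime_of_squarefree_mul
        rw [h2]
        exact hn
      have h4 : Nat.gcd n r * (r / Nat.gcd n r) = r := Nat.mul_div_cancel' (Nat.gcd_dvd_right n r)
      have h6 := Nat.Coprime.mul_right h3.symm h1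
      rwa [h4] at h6
    have hNr : Nat.Coprime N r := by
      rw [hN]
      exact Nat.Coprime.mul_left (Nat.coprime_two_left.2 hro) hcop
    have hN0 : N ≠ 0 := by
      rw [hN]
      have := Nat.div_pos (Nat.le_of_dvd (Nat.pos_of_ne_zero hn0) hgn) hg0
      omega
    rw [sum_multG N r hN0 hNr]
    have hid := final_id n r hn hno hr hro
    rw [← hκ, ← hκ', ← hN] at hid
    rw [hid]
    unfold cstD cst
    rw [← hndef, ← hκ, ← (gg_euler r).tprod_eq]
    rfl
  rw [hA]
  have e1 : ∀ x : ℕ, mainR D 1 r x / (Nat.primeCounting x : ℝ) =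
      ∑' d : ℕ, ((moebius d : ℤ) : ℝ) / d *
        (Vs D 1 r d x / (Nat.primeCounting x : ℝ)) := by
    intro x
    rw [mainR_eq, ← tsum_div_const]
    apply tsum_congr
    intro d
    rw [mul_div_assoc]
  simp_rw [e1]
  apply tendsto_tsum_of_dominated_convergence
    (bound := fun d : ℕ => 2 * C * (d : ℝ) ^ (-(5 : ℝ) / 4))
  · apply Summable.mul_left
    rw [Real.summable_nat_rpow]
    norm_num
  · intro d
    by_cases hd : Squarefree d
    · by_cases hc : Nat.Coprime d r
      · have h1 : Tendsto (fun x : ℕ => ∑ e ∈ r.divisors, ((moebius e : ℤ) : ℝ) *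
              (Us D 1 (d * e) x / (Nat.primeCounting x : ℝ))) atTop
            (𝓝 (∑ e ∈ r.divisors, ((moebius e : ℤ) : ℝ) *
              ((1 + (if 2 * n ∣ d * e then 1 else 0)) / (Nat.totient (d * e) : ℝ)))) := by
          apply tendsto_finsetSum
          intro e he
          apply Tendsto.const_mul
          have he0 : 0 < e := Nat.pos_of_mem_divisors he
          have h2 := Wd_lim D hD h4 hD1 (d * e)
            (Nat.mul_pos (Nat.pos_of_ne_zero hd.ne_zero) he0)
          unfold om at h2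
          rw [← hndef] at h2
          refine h2.congr fun x => ?_
          rw [Us_eq D 1 (d * e) x]
          ring
        rw [limV n r d hn hr hro hc, ← hκ, ← hκ', ← hN] at h1
        have h3 : gg r d = ((moebius d : ℤ) : ℝ) / d / (Nat.totient d : ℝ) := by
          unfold gg
          rw [if_pos hc.symm]
          rfl
        have h5 : κ * gg r d + κ' * (if N ∣ d then gg r d else 0) =
            ((moebius d : ℤ) : ℝ) / d * ((1 / (Nat.totient d : ℝ)) * κ +
              (if N ∣ d then (1 / (Nat.totient d : ℝ)) * κ' else 0)) := by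
          rw [h3]
          split_ifs <;> ring
        rw [h5]
        apply Tendsto.const_mul
        refine h1.congr fun x => ?_
        rw [Vs_eq D 1 r d x hro hc, Finset.sum_div]
        apply Finset.sum_congr rfl
        intro e _
        rw [mul_div_assoc]
      · have h3 : gg r d = 0 := by
          unfold gg
          rw [if_neg (fun h => hc h.symm)]
        have h5 : κ * gg r d + κ' * (if N ∣ d then gg r d else 0) = 0 := by
          rw [h3]
          simp
        rw [h5]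
        refine tendsto_const_nhds.congr fun x => ?_
        rw [Vs_zero D 1 r d x hc]
        simp
    · have h3 : gg r d = 0 := by
        unfold gg
        rw [hh_not_sqf hd]
        simp
      have h5 : κ * gg r d + κ' * (if N ∣ d then gg r d else 0) = 0 := by
        rw [h3]
        simp
      rw [moebius_eq_zero_of_not_squarefree hd, h5]
      simp
  · filter_upwards [eventually_ge_atTop 2] with x hx d
    rcases Nat.eq_zero_or_pos d with rfl | hd
    · simp
    · have hd0 : (0 : ℝ) < d := by exact_mod_cast hd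
      have h1 := hb d x hd hx
      have hmu : |((moebius d : ℤ) : ℝ)| ≤ 1 := by
        have := abs_moebius_le_one (n := d)
        exact_mod_cast this
      have h2 : |Vs D 1 r d x| / (Nat.primeCounting x : ℝ) ≤ 2 * (C * (d : ℝ) ^ (-(1 : ℝ) / 4)) := by
        calc |Vs D 1 r d x| / (Nat.primeCounting x : ℝ) ≤
            2 * |Wd 1 d x| / (Nat.primeCounting x : ℝ) := by
              apply div_le_div_of_nonneg_right (Vs_le D 1 (by norm_num) r d x) (Nat.cast_nonneg _)
          _ = 2 * (|Wd 1 d x| / (Nat.primeCounting x : ℝ)) := by ring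
          _ ≤ _ := by gcongr
      rw [Real.norm_eq_abs, abs_mul, abs_div, abs_div, Nat.abs_cast, Nat.abs_cast]
      calc |((moebius d : ℤ) : ℝ)| / d *
            (|Vs D 1 r d x| / (Nat.primeCounting x : ℝ))
          ≤ 1 / d * (2 * (C * (d : ℝ) ^ (-(1 : ℝ) / 4))) := by
            apply mul_le_mul _ h2 (by positivity) (by positivity)
            gcongr
        _ = 2 * C * (d : ℝ) ^ (-(5 : ℝ) / 4) := by
            have : (d : ℝ) ^ (-(5 : ℝ) / 4) = (d : ℝ) ^ (-(1 : ℝ) / 4) * (d : ℝ) ^ (-1 : ℝ) := by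
              rw [← Real.rpow_add hd0]
              norm_num
            rw [this, Real.rpow_neg_one]
            field_simp

end Pool.Agent.H74R5
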