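import Mathlib
import Pool.Agent.H74R5.DatumK
import Pool.Agent.H74R5.MainC

set_option autoImplicit false

/-! # The counting problems for `D b² a ^ k`, `D ≡ 1 mod 4`, `k` even, and the primes `p` with
`gcd(p - 1, r) = 1` -/

namespace Pool.Agent.H74R5

open Finset Filter Topology
open Pool.Agent.H386R2.Artin (PP Good hL gL LC_pos gL_nonneg gL_le_one)
open Pool.Agent.H730R2.AA (rho)
open Pool.Agent.H730R2.AB (gL_rho)
open Pool.Agent.H771R4.SE

lemma GGC_lim (D : ℤ) (hD : Squarefree D) (h4 : D % 4 = 1) (hD1 : D ≠ 1)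
    (r : ℕ) (hr : Squarefree r) (hro : Odd r) :
    Tendsto (fun x : ℕ => (∑ p ∈ PP x, GG D 1 r p) / (Nat.primeCounting x : ℝ)) atTop
      (𝓝 (cstD D r)) := by
  have h := mainC_lim D hD h4 hD1 r hr hro
  refine h.congr fun x => ?_
  congr 1
  unfold mainR PP GG
  rw [← Finset.sum_filter]
  apply Finset.sum_congr _ (fun _ _ => rfl)
  ext p
  unfold Pool.Agent.H730R2.AA.PR
  simp only [mem_filter, mem_range]
  constructor
  · rintro ⟨⟨h1, h2, h3, h4⟩, h5⟩
    exact ⟨⟨h1, h2⟩, ⟨by omega, h2, h3, h4⟩, h5⟩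
  · rintro ⟨⟨h1, h2⟩, ⟨_, _, h3, h4⟩, h5⟩
    exact ⟨⟨h1, h2, h3, h4⟩, h5⟩

/-- even exponents, `D ≡ 1 mod 4` -/
noncomputable def dEvenC (D : ℤ) (hD : Squarefree D) (h4 : D % 4 = 1) (hD1 : D ≠ 1) (b : ℤ)
    (hb : b ≠ 0) (r : ℕ) (hr : Squarefree r)
    (hro : Odd r) (k : ℕ) (hk0 : 0 < k) (hk2 : 2 ∣ k) (hk : Adapted r k) : Dat where
  Q := fun p a => Nat.Coprime (p - 1) r ∧ orderOf (((D * b ^ 2 : ℤ) : ZMod p) * a ^ k) = p - 1
  G := GG D 1 r
  A := cstD D r
  p0 := (D * b ^ 2).natAbs + 3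
  G0 := GG_nn D 1 zero_le_one le_rfl r
  G1 := GG_le D 1 zero_le_one le_rfl r
  loc := by
    classical
    intro p hp hp0 E M L hL2 hE hM hG
    have : Fact p.Prime := ⟨hp⟩
    have hpDb : ¬ (p : ℤ) ∣ D * b ^ 2 :=
      not_dvd_of_lt (mul_ne_zero hD.ne_zero (pow_ne_zero 2 hb)) (by omega)
    have hpD : ¬ (p : ℤ) ∣ D := fun h => hpDb (h.mul_right _)
    have hp2 : p ≠ 2 := by omega
    have hD' : (D : ZMod p) ≠ 0 := by rwa [Ne, ZMod.intCast_zmod_eq_zero_iff_dvd]
    have hDb' : ((D * b ^ 2 : ℤ) : ZMod p) ≠ 0 := by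
      rwa [Ne, ZMod.intCast_zmod_eq_zero_iff_dvd]
    have hb' : (b : ZMod p) ≠ 0 := by
      intro h
      apply hDb'
      push_cast
      rw [h]
      simp
    have hPR : p ∈ Pool.Agent.H730R2.AA.PR D p := by
      unfold Pool.Agent.H730R2.AA.PR
      rw [mem_filter, mem_range]
      exact ⟨by omega, hp, hp2, hpD⟩
    by_cases hcop : Nat.Coprime (p - 1) r
    swap
    · have e2 : ((#(E.filter (fun q : ℕ => Nat.Coprime (p - 1) r ∧
          orderOf (((D * b ^ 2 : ℤ) : ZMod p) * ((q : ℕ) : ZMod p) ^ k) = p - 1)) : ℕ) : ℝ) = 0 := by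
        rw [filter_eq_empty_iff.2 (fun q _ hcon => hcop hcon.1)]
        simp
      unfold GG
      rw [if_neg (fun h => hcop h.2), mul_zero, sub_zero]
      refine le_trans (le_of_eq ?_) (err_nn p E M L hM)
      rw [abs_eq_zero]
      refine Eq.trans ?_ e2
      congr!
    have hjl : jacobiSym D p = legendreSym p D := (jacobiSym.legendreSym.to_jacobiSym p D).symm
    have hGG : GG D 1 r p = rho p * (1 - (legendreSym p D : ℝ)) := by
      unfold GG
      rw [if_pos ⟨hPR, hcop⟩, one_mul, hjl]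
    rw [hGG]
    have hpd : (p - 1) / 2 = p / 2 := by
      have := hp.eq_two_or_odd
      omega
    have hc : 2 * ((p - 1) / 2) = p - 1 := by
      have := hp.eq_two_or_odd
      omega
    have hsq : ((D * b ^ 2 : ℤ) : ZMod p) ^ (p / 2) = (D : ZMod p) ^ (p / 2) := by
      push_cast
      rw [mul_pow, ← pow_mul, ← hpd, hc, ZMod.pow_card_sub_one_eq_one hb', mul_one]
    have hpow : ∀ b : ZMod p, b ≠ 0 → (b ^ k) ^ ((p - 1) / 2) = 1 := by
      intro b hb
      obtain ⟨i, rfl⟩ := hk2
      rw [mul_comm 2 i, pow_mul, ← pow_mul, hc]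
      exact ZMod.pow_card_sub_one_eq_one (pow_ne_zero _ hb)
    rcases legendreSym.eq_one_or_neg_one p hD' with h | h
    · -- quadratic residue
      have h1 : ((D * b ^ 2 : ℤ) : ZMod p) ^ (p / 2) = 1 := by
        rw [hsq]
        have := legendreSym.eq_pow p D
        rw [h] at this
        rw [← this]
        push_cast; rfl
      have hempty : (E.filter (fun q : ℕ => Nat.Coprime (p - 1) r ∧
          orderOf (((D * b ^ 2 : ℤ) : ZMod p) * ((q : ℕ) : ZMod p) ^ k) = p - 1)) = ∅ := by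
        rw [filter_eq_empty_iff]
        rintro q hq ⟨_, hcon⟩
        have h2 : (((D * b ^ 2 : ℤ) : ZMod p) * ((q : ℕ) : ZMod p) ^ k) ^ ((p - 1) / 2) = 1 := by
          rw [mul_pow, hpow _ (hE q hq), mul_one, hpd]
          exact h1
        have h3 := orderOf_dvd_of_pow_eq_one h2
        rw [hcon] at h3
        have h4 : 0 < (p - 1) / 2 := by omega
        have h5 := Nat.le_of_dvd h4 h3
        omega
      have e1 : (1 : ℝ) - ((legendreSym p D : ℤ) : ℝ) = 0 := by rw [h]; push_cast; norm_num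
      rw [e1, mul_zero, mul_zero, sub_zero]
      have e2 : ((#(E.filter (fun q : ℕ => Nat.Coprime (p - 1) r ∧
          orderOf (((D * b ^ 2 : ℤ) : ZMod p) * ((q : ℕ) : ZMod p) ^ k) = p - 1)) : ℕ) : ℝ) = 0 := by
        rw [hempty]; simp
      refine le_trans (le_of_eq ?_) (err_nn p E M L hM)
      rw [abs_eq_zero]
      refine Eq.trans ?_ e2
      congr!
    · have h1 : ((D * b ^ 2 : ℤ) : ZMod p) ^ (p / 2) = -1 := by
        rw [hsq]
        have := legendreSym.eq_pow p D
        rw [h] at this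
        rw [← this]
        push_cast; rfl
      have e1 : rho p * ((1 : ℝ) - ((legendreSym p D : ℤ) : ℝ)) = 2 * rho p := by
        rw [h]; push_cast; ring
      rw [e1]
      refine loc_odd hp hp2 E M L hL2 hE hM hG
        (fun q : ℕ => ((D * b ^ 2 : ℤ) : ZMod p) * (q : ZMod p) ^ k) (fun q hq =>
          mul_ne_zero hDb' (pow_ne_zero _ (hE q hq)))
        (lin_pow (D * b ^ 2) hpDb k hk0 (fun K hK hKo => adapted_cop hk hcop K hK hKo)) _
        (fun q => ?_)
      refine (@Finset.mem_filter _ _ (fun _ => Classical.propDecidable _) _ _).trans ?_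
      apply and_congr_right
      intro hq
      rw [and_iff_right hcop]
      apply prim_iff_oddP hp2
      rw [mul_pow, ← hpd, hpow _ (hE q hq), mul_one, hpd]
      exact h1
  lim := GGC_lim D hD h4 hD1 r hr hro

/-- the density is positive -/
theorem cstD_pos (D : ℤ) (hD : Squarefree D) (h4 : D % 4 = 1) (hD1 : D ≠ 1) (r : ℕ)
    (hc : 0 < cst r) : 0 < cstD D r := by
  unfold cstD
  refine mul_pos ?_ hc
  have hn : Squarefree D.natAbs := Int.squarefree_natAbs.2 hD
  have hno : Odd D.natAbs := Nat.odd_iff.2 (by omega)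
  have hn1 : D.natAbs ≠ 1 := by omega
  obtain ⟨n, hndef⟩ : ∃ n, n = D.natAbs := ⟨_, rfl⟩
  rw [← hndef] at hn hno hn1 ⊢
  have hcf : ∀ q ∈ n.primeFactors, 0 ≤ cf r q ∧ cf r q ≤ 1 ∧ (q ≠ 3 → cf r q < 1) := by
    intro q hq
    have hqp := Nat.prime_of_mem_primeFactors hq
    have h3 := odd_prime_ge hno hqp (Nat.dvd_of_mem_primeFactors hq)
    have h5 : q ≠ 3 → (5 : ℝ) ≤ q := by
      intro hq3
      have h3' : 3 ≤ q := by exact_mod_cast h3
      have h4' : q ≠ 4 := by
        rintro rfl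
        revert hqp
        norm_num
      have : 5 ≤ q := by omega
      exact_mod_cast this
    unfold cf
    split_ifs
    · refine ⟨by apply div_nonneg <;> linarith, ?_, fun h => ?_⟩
      · rw [div_le_one (by linarith)]; linarith
      · rw [div_lt_one (by linarith [h5 h])]; linarith [h5 h]
    · have h6 : (3 : ℝ) < (q : ℝ) ^ 2 - q - 1 := by nlinarith
      refine ⟨by apply div_nonneg <;> linarith, ?_, fun h => ?_⟩
      · rw [div_le_one (by linarith)]; linarith
      · rw [div_lt_one (by linarith)]; linarith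
  have hP0 : 0 ≤ ∏ q ∈ n.primeFactors, cf r q := Finset.prod_nonneg fun q hq => (hcf q hq).1
  rcases (ArithmeticFunction.moebius_eq_or n) with h | h | h
  · rw [h]; norm_num
  · rw [h]
    have hlt : ∏ q ∈ n.primeFactors, cf r q < 1 := by
      obtain ⟨q, hq, hq3⟩ : ∃ q ∈ n.primeFactors, q ≠ 3 := by
        by_contra hcon
        push Not at hcon
        have h1 : ∏ q ∈ n.primeFactors, q = n := Nat.prod_primeFactors_of_squarefree hn
        rcases Finset.eq_empty_or_nonempty n.primeFactors with h2 | ⟨q, hq⟩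
        · rw [h2, Finset.prod_empty] at h1
          exact hn1 h1.symm
        · have h3 : n.primeFactors = {3} := by
            apply Finset.eq_singleton_iff_unique_mem.2
            refine ⟨by rw [← hcon q hq]; exact hq, hcon⟩
          rw [h3, Finset.prod_singleton] at h1
          rw [← h1, ArithmeticFunction.moebius_apply_prime Nat.prime_three] at h
          norm_num at h
      rw [← Finset.mul_prod_erase _ _ hq]
      have h2 : ∏ x ∈ n.primeFactors.erase q, cf r x ≤ 1 :=
        Finset.prod_le_one (fun x hx => (hcf x (Finset.mem_of_mem_erase hx)).1)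
          (fun x hx => (hcf x (Finset.mem_of_mem_erase hx)).2.1)
      have h3 : 0 ≤ ∏ x ∈ n.primeFactors.erase q, cf r x :=
        Finset.prod_nonneg (fun x hx => (hcf x (Finset.mem_of_mem_erase hx)).1)
      calc cf r q * ∏ x ∈ n.primeFactors.erase q, cf r x ≤ cf r q * 1 :=
            mul_le_mul_of_nonneg_left h2 (hcf q hq).1
        _ < 1 := by rw [mul_one]; exact (hcf q hq).2.2 hq3
    push_cast
    linarith
  · rw [h]
    push_cast
    linarith

end Pool.Agent.H74R5
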