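import Mathlib
import Pool.Agent.H730R2.AA.Grid

set_option autoImplicit false

/-! # All `x` simultaneously, for an arbitrary limit density of the main term
(the argument of helper730, `Pool.Agent.H730R2.AA.all_x_of`, with the density as a parameter) -/

namespace Pool.Agent.H74R5

open Finset Filter Topology
open Pool.Agent.H730R2.AA
open Pool.Agent.H730R2.AA.Grid

/-- the integers `m ≤ M` that are exceptional at some `x` with `X ≤ x ≤ Y` -/
noncomputable def badAllG (D : ℤ) (δ : ℝ) (ε : ℝ) (X : ℕ) (Y : ℝ) (M : ℕ) : Finset ℕ := by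
  classical
  exact (Finset.Icc 1 M).filter (fun m : ℕ => ∃ x : ℕ, X ≤ x ∧ (x : ℝ) ≤ Y ∧
      ε * (Nat.primeCounting x : ℝ) <
        |(cnt (D * (m : ℤ) ^ 2) x : ℝ) - δ * (Nat.primeCounting x : ℝ)|)

lemma inclG (D : ℤ) (δ : ℝ) {ε ε₁ ρ Y : ℝ} (hε₁ : 0 < ε₁) (hε₁1 : ε₁ ≤ 1)
    (hε : (|δ| + 3) * ε₁ ≤ ε) (hρ : 1 < ρ) {X J0 L : ℕ}
    (hpi : ∀ x y : ℕ, X ≤ x → x ≤ y → (y : ℝ) ≤ ρ ^ 2 * x →
      (Nat.primeCounting y : ℝ) ≤ (1 + ε₁) * Nat.primeCounting x)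
    (hmain : ∀ x : ℕ, X ≤ x → |mainT D x - δ * Nat.primeCounting x| ≤
      ε₁ / 2 * Nat.primeCounting x)
    (hJ0 : X ≤ g ρ J0) (hJ1 : 1 ≤ (ρ ^ 2 - ρ) * g ρ J0)
    (hL : ∀ j : ℕ, (g ρ j : ℝ) ≤ ρ ^ 2 * Y → j ≤ L) (M : ℕ) :
    badAllG D δ ε (g ρ J0) Y M ⊆ ((Ico J0 (L + 1)).filter (fun j => (g ρ j : ℝ) ≤ ρ ^ 2 * Y)).biUnion
      (fun j => bad D (ε₁ / 2) (mainT D (g ρ j)) (g ρ j) M) := by
  classical
  intro m hm
  unfold badAllG at hm
  rw [mem_filter] at hm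
  obtain ⟨hm, x, hxX, hxY, hx⟩ := hm
  have hρ0 : 0 < ρ := by linarith
  have hg1 := g_one_le hρ J0
  have hx1 : (1 : ℝ) ≤ x := hg1.trans (by exact_mod_cast hxX)
  obtain ⟨j, hj1, hj2⟩ := exists_nat_pow_near hx1 hρ
  have hJj : J0 ≤ j := by
    have h1 : ρ ^ J0 < ρ ^ (j + 1) := (g_ge J0).trans_lt (lt_of_le_of_lt (by exact_mod_cast hxX) hj2)
    have := (pow_lt_pow_iff_right₀ hρ).1 h1
    omega
  have hgx : g ρ j ≤ x := Nat.ceil_le.2 hj1
  have hxg : x ≤ g ρ (j + 1) := by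
    have : (x : ℝ) ≤ g ρ (j + 1) := hj2.le.trans (g_ge _)
    exact_mod_cast this
  have hgg : g ρ J0 ≤ g ρ j := g_mono hρ hJj
  have hρρ : 0 < ρ ^ 2 - ρ := by nlinarith
  have hstep : (g ρ (j + 1) : ℝ) ≤ ρ ^ 2 * g ρ j := by
    refine g_step (hJ1.trans ?_) hρ
    have : (g ρ J0 : ℝ) ≤ g ρ j := by exact_mod_cast hgg
    gcongr
  have hgx' : (g ρ j : ℝ) ≤ x := by exact_mod_cast hgx
  have hY0 : 0 ≤ Y := by linarith
  have hgY : (g ρ j : ℝ) ≤ ρ ^ 2 * Y := by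
    have : (g ρ j : ℝ) ≤ Y := hgx'.trans hxY
    nlinarith
  have hgY1 : (g ρ (j + 1) : ℝ) ≤ ρ ^ 2 * Y := by
    refine hstep.trans ?_
    have : (g ρ j : ℝ) ≤ Y := hgx'.trans hxY
    gcongr
  rw [mem_biUnion]
  by_contra hcon
  push Not at hcon
  have hn0 := hcon j (by rw [mem_filter, mem_Ico]; exact ⟨⟨hJj, by have := hL j hgY; omega⟩, hgY⟩)
  have hn1 := hcon (j + 1) (by
    rw [mem_filter, mem_Ico]; exact ⟨⟨by omega, by have := hL _ hgY1; omega⟩, hgY1⟩)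
  unfold bad at hn0 hn1
  rw [mem_filter, not_and, not_lt] at hn0 hn1
  have hn0' := hn0 hm
  have hn1' := hn1 hm
  have hmj := hmain (g ρ j) (hJ0.trans hgg)
  have hmj1 := hmain (g ρ (j + 1)) (hJ0.trans (g_mono hρ (by omega)))
  have ha0 : |(cnt (D * (m : ℤ) ^ 2) (g ρ j) : ℝ) - δ * Nat.primeCounting (g ρ j)| ≤
      ε₁ * Nat.primeCounting (g ρ j) := by
    have := abs_sub_le (cnt (D * (m : ℤ) ^ 2) (g ρ j) : ℝ) (mainT D (g ρ j))
      (δ * Nat.primeCounting (g ρ j))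
    linarith
  have ha1 : |(cnt (D * (m : ℤ) ^ 2) (g ρ (j + 1)) : ℝ) -
      δ * Nat.primeCounting (g ρ (j + 1))| ≤ ε₁ * Nat.primeCounting (g ρ (j + 1)) := by
    have := abs_sub_le (cnt (D * (m : ℤ) ^ 2) (g ρ (j + 1)) : ℝ) (mainT D (g ρ (j + 1)))
      (δ * Nat.primeCounting (g ρ (j + 1)))
    linarith
  have hpij : (Nat.primeCounting (g ρ (j + 1)) : ℝ) ≤ (1 + ε₁) * Nat.primeCounting (g ρ j) :=
    hpi _ _ (hJ0.trans hgg) (hgx.trans hxg) hstep
  have hfin := interp (δ := δ) (e := ε₁) (P0 := (Nat.primeCounting (g ρ j) : ℝ))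
    (P := (Nat.primeCounting x : ℝ)) (P1 := (Nat.primeCounting (g ρ (j + 1)) : ℝ))
    (A0 := (cnt (D * (m : ℤ) ^ 2) (g ρ j) : ℝ)) (A := (cnt (D * (m : ℤ) ^ 2) x : ℝ))
    (A1 := (cnt (D * (m : ℤ) ^ 2) (g ρ (j + 1)) : ℝ)) hε₁ hε₁1 (Nat.cast_nonneg _)
    (by exact_mod_cast Nat.monotone_primeCounting hgx)
    (by exact_mod_cast Nat.monotone_primeCounting hxg) hpij
    (by exact_mod_cast cnt_mono _ hgx) (by exact_mod_cast cnt_mono _ hxg) ha0 ha1
  have hlast : (|δ| + 3) * ε₁ * (Nat.primeCounting x : ℝ) ≤ ε * (Nat.primeCounting x : ℝ) := by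
    gcongr
  linarith

theorem all_x_ofG (D : ℤ) (δ : ℝ) (ε η : ℝ) (hε : 0 < ε) (hη : 0 < η)
    (hml : Tendsto (fun x : ℕ => mainT D x / (Nat.primeCounting x : ℝ)) atTop (nhds (δ)))
    (hone : ∀ ε' : ℝ, 0 < ε' → ∃ (C : ℝ) (X : ℕ), 0 < C ∧ 2 ≤ X ∧
      ∀ (r M x : ℕ), 1 ≤ r → 1 ≤ M → X ≤ x → (x : ℝ) ^ 2 ≤ (M : ℝ) ^ r →
      ((bad D ε' (mainT D x) x M).card : ℝ) ≤
        C * M * ((1 + Real.log x) ^ 2 * ((x : ℝ) ^ (-(1 : ℝ) / (2 * r)) *
          (1 + Real.log M) ^ (((r : ℝ) - 1) / 2) + (x : ℝ) ^ (-(1 : ℝ) / 2)))) :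
    ∃ X : ℕ, ∀ᶠ M : ℕ in atTop,
      ((badAllG D δ ε X (Real.exp ((Real.log M) ^ 2 / (64 * Real.log (Real.log M)))) M).card : ℝ) ≤
        η * M := by
  classical
  have hd := abs_nonneg (δ)
  set ε₁ : ℝ := min 1 (ε / (|δ| + 3)) with hε₁def
  have hε₁ : 0 < ε₁ := lt_min one_pos (by positivity)
  have hε₁1 : ε₁ ≤ 1 := min_le_left _ _
  have hεε : (|δ| + 3) * ε₁ ≤ ε := by
    have : ε₁ ≤ ε / (|δ| + 3) := min_le_right _ _
    rw [le_div_iff₀ (by positivity)] at this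
    linarith
  obtain ⟨C, X1, hC, hX1, hbad⟩ := hone (ε₁ / 2) (by positivity)
  obtain ⟨ρ, hρ, hρ2, X2, hX2, hpi⟩ := pi_ratio ε₁ hε₁
  rw [Metric.tendsto_atTop] at hml
  obtain ⟨X3, hX3⟩ := hml (ε₁ / 2) (by positivity)
  have hρρ : 0 < ρ ^ 2 - ρ := by nlinarith
  set X := max (max X1 X2) X3 with hX
  have hXX1 : X1 ≤ X := (le_max_left _ _).trans (le_max_left _ _)
  have hXX2 : X2 ≤ X := (le_max_right _ _).trans (le_max_left _ _)
  have hXX3 : X3 ≤ X := le_max_right _ _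
  have hlρ : 0 < Real.log ρ := Real.log_pos hρ
  obtain ⟨J, hJ⟩ := hh_tail hρ (η / (4 * C)) (by positivity)
  obtain ⟨J1, hJ1⟩ := pow_unbounded_of_one_lt (X + 1 / (ρ ^ 2 - ρ) : ℝ) hρ
  set J0 := max J J1 with hJ0
  have hgJ0 : (X : ℝ) + 1 / (ρ ^ 2 - ρ) ≤ g ρ J0 := by
    refine hJ1.le.trans ((pow_le_pow_right₀ hρ.le (le_max_right _ _)).trans (g_ge _))
  have hq : 0 < 1 / (ρ ^ 2 - ρ) := by positivity
  have hgJ0X : X ≤ g ρ J0 := by
    have : (X : ℝ) ≤ g ρ J0 := by linarith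
    exact_mod_cast this
  have hgJ01 : 1 ≤ (ρ ^ 2 - ρ) * g ρ J0 := by
    have h1 : 1 / (ρ ^ 2 - ρ) ≤ g ρ J0 := by
      have : (0 : ℝ) ≤ X := Nat.cast_nonneg _
      linarith
    rw [div_le_iff₀ hρρ] at h1
    linarith
  have hmain : ∀ x : ℕ, X ≤ x → |mainT D x - δ * Nat.primeCounting x| ≤
      ε₁ / 2 * Nat.primeCounting x := by
    intro x hx
    have hx2 : 2 ≤ x := by omega
    have hpos : (0 : ℝ) < Nat.primeCounting x := by
      have h1 : Nat.primeCounting 2 ≤ Nat.primeCounting x := Nat.monotone_primeCounting hx2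
      have h2 : Nat.primeCounting 2 = 1 := by decide
      have : 0 < Nat.primeCounting x := by omega
      exact_mod_cast this
    have h1 := hX3 x (hXX3.trans hx)
    rw [Real.dist_eq] at h1
    have h2 : mainT D x - δ * Nat.primeCounting x =
        (mainT D x / Nat.primeCounting x - δ) * Nat.primeCounting x := by
      field_simp
    rw [h2, abs_mul, abs_of_pos hpos]
    gcongr
  refine ⟨g ρ J0, ?_⟩
  have hev := (Real.tendsto_log_atTop.comp tendsto_natCast_atTop_atTop).eventually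
    (ev ρ (η / (4 * C)) hρ hρ2 (by positivity))
  filter_upwards [hev, eventually_ge_atTop 1] with M hM hM1
  simp only [Function.comp] at hM
  obtain ⟨e1, e2, e3, e4, e5⟩ := hM
  set l := Real.log M with hl
  have hl0 : 0 < l := by linarith
  have hll : 0 < Real.log l := Real.log_pos e1
  have hM0 : (0 : ℝ) < M := by exact_mod_cast hM1
  set Y := Real.exp (l ^ 2 / (64 * Real.log l)) with hY
  have hYpos : 0 < Y := Real.exp_pos _
  have hρ0 : 0 < ρ := by linarith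
  -- log of grid points
  have hlogg : ∀ j : ℕ, (g ρ j : ℝ) ≤ ρ ^ 2 * Y → Real.log (g ρ j) ≤ l ^ 2 / (32 * Real.log l) := by
    intro j hj
    have h1 : Real.log (g ρ j) ≤ Real.log (ρ ^ 2 * Y) :=
      Real.log_le_log (by linarith [g_one_le hρ j]) hj
    rw [Real.log_mul (by positivity) hYpos.ne', Real.log_pow, hY, Real.log_exp] at h1
    push_cast at h1
    linarith
  set L : ℕ := ⌊l ^ 2 / Real.log ρ⌋₊ + 1 with hL
  have hLj : ∀ j : ℕ, (g ρ j : ℝ) ≤ ρ ^ 2 * Y → j ≤ L := by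
    intro j hj
    have h1 := hlogg j hj
    have h2 : (j : ℝ) * Real.log ρ ≤ Real.log (g ρ j) := by
      rw [← Real.log_pow]
      exact Real.log_le_log (by positivity) (g_ge j)
    have h3 : (j : ℝ) ≤ l ^ 2 / Real.log ρ := by
      rw [le_div_iff₀ hlρ]
      linarith
    have h4 : j ≤ ⌊l ^ 2 / Real.log ρ⌋₊ := Nat.le_floor h3
    omega
  have hsub := inclG D δ hε₁ hε₁1 hεε hρ (fun x y hx => hpi x y (hXX2.trans hx)) hmain hgJ0X hgJ01
    hLj M
  set I := (Ico J0 (L + 1)).filter (fun j => (g ρ j : ℝ) ≤ ρ ^ 2 * Y) with hI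
  set E := (1 + l ^ 2) ^ 2 * Real.exp (-(l / 16)) with hE
  have hE0 : 0 ≤ E := by positivity
  have hterm : ∀ j ∈ I, ((bad D (ε₁ / 2) (mainT D (g ρ j)) (g ρ j) M).card : ℝ) ≤
      2 * C * M * (hh ρ j + E) := by
    intro j hj
    rw [hI, mem_filter, mem_Ico] at hj
    obtain ⟨⟨hj1, hj2⟩, hj3⟩ := hj
    have hgX : X1 ≤ g ρ j := hXX1.trans (hgJ0X.trans (g_mono hρ hj1))
    have hg1 := g_one_le hρ j
    have hg0 : (0 : ℝ) < g ρ j := by linarith
    have hlg0 : 0 ≤ Real.log (g ρ j) := Real.log_nonneg hg1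
    by_cases hc : ((g ρ j : ℕ) : ℝ) ^ 2 ≤ M
    · have h1 := hbad 1 M (g ρ j) le_rfl hM1 hgX (by simpa using hc)
      refine h1.trans ?_
      have h2 : ((1 : ℕ) : ℝ) = 1 := by norm_num
      rw [h2]
      have h3 : (1 + l) ^ (((1 : ℝ) - 1) / 2) = 1 := by norm_num
      rw [h3]
      have h4 : (-(1 : ℝ)) / (2 * 1) = -1 / 2 := by norm_num
      rw [h4, mul_one]
      unfold hh
      have h5 : 0 ≤ 2 * C * M * E := by positivity
      calc _ = 2 * C * M * ((1 + Real.log (g ρ j)) ^ 2 * ((g ρ j : ℕ) : ℝ) ^ (-(1 : ℝ) / 2)) := by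
            ring
        _ ≤ _ := by rw [mul_add (2 * C * M)]; linarith
    · push Not at hc
      have hgl := hlogg j hj3
      obtain ⟨r, hr1, hr2, hr3⟩ := case2 (M := M) (x := g ρ j) (by exact_mod_cast hg1) e1 hc hgl e2
      have h1 := hbad r M (g ρ j) hr1 hM1 hgX hr2
      refine h1.trans ?_
      have h6 : ((g ρ j : ℕ) : ℝ) ^ (-(1 : ℝ) / 2) ≤ Real.exp (-(l / 16)) := by
        rw [Real.rpow_def_of_pos hg0]
        refine Real.exp_le_exp.2 ?_
        have h7 : l < 2 * Real.log (g ρ j) := by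
          have := Real.log_lt_log hM0 hc
          rw [Real.log_pow] at this
          exact_mod_cast this
        linarith
      have h8 : (1 + Real.log (g ρ j)) ^ 2 ≤ (1 + l ^ 2) ^ 2 := by
        have : Real.log (g ρ j) ≤ l ^ 2 := hgl.trans e4
        gcongr
      have h9 : 0 ≤ hh ρ j := hh_nonneg j
      calc _ ≤ C * M * ((1 + l ^ 2) ^ 2 * (Real.exp (-(l / 16)) + Real.exp (-(l / 16)))) := by
            gcongr
        _ = 2 * C * M * E := by rw [hE]; ring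
        _ ≤ _ := by
          have : 0 ≤ 2 * C * M * hh ρ j := by positivity
          rw [mul_add (2 * C * M)]; linarith
  calc ((badAllG D δ ε (g ρ J0) Y M).card : ℝ)
      ≤ ((I.biUnion (fun j => bad D (ε₁ / 2) (mainT D (g ρ j)) (g ρ j) M)).card : ℝ) := by
        exact_mod_cast card_le_card hsub
    _ ≤ ∑ j ∈ I, ((bad D (ε₁ / 2) (mainT D (g ρ j)) (g ρ j) M).card : ℝ) := by
        exact_mod_cast card_biUnion_le
    _ ≤ ∑ j ∈ I, 2 * C * M * (hh ρ j + E) := sum_le_sum hterm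
    _ ≤ ∑ j ∈ Ico J0 (L + 1), 2 * C * M * (hh ρ j + E) := by
        refine sum_le_sum_of_subset_of_nonneg (filter_subset _ _) (fun j _ _ => ?_)
        have := hh_nonneg (ρ := ρ) j
        positivity
    _ = 2 * C * M * (∑ j ∈ Ico J0 (L + 1), hh ρ j + (Ico J0 (L + 1)).card * E) := by
        rw [← mul_sum, sum_add_distrib, sum_const, nsmul_eq_mul]
    _ ≤ 2 * C * M * (η / (4 * C) + η / (4 * C)) := by
        have h1 := hJ J0 (le_max_left _ _) (L + 1)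
        have h2 : ((Ico J0 (L + 1)).card : ℝ) ≤ l ^ 2 / Real.log ρ + 4 := by
          rw [Nat.card_Ico]
          have h3 : ((L + 1 - J0 : ℕ) : ℝ) ≤ (L : ℝ) + 1 := by
            have : L + 1 - J0 ≤ L + 1 := Nat.sub_le _ _
            exact_mod_cast this
          have h4 : (L : ℝ) ≤ l ^ 2 / Real.log ρ + 1 := by
            rw [hL]; push_cast
            have := Nat.floor_le (show 0 ≤ l ^ 2 / Real.log ρ by positivity)
            linarith
          linarith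
        have h5 : ((Ico J0 (L + 1)).card : ℝ) * E ≤ η / (4 * C) := by
          calc _ ≤ (l ^ 2 / Real.log ρ + 4) * E := by gcongr
            _ = (l ^ 2 / Real.log ρ + 4) * (1 + l ^ 2) ^ 2 * Real.exp (-(l / 16)) := by
              rw [hE]; ring
            _ ≤ _ := e5
        gcongr
    _ = η * M := by field_simp; norm_num

end Pool.Agent.H74R5
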