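import Mathlib
import Pool.Agent.H74R5.MainR

set_option autoImplicit false

/-! # The density is positive -/

namespace Pool.Agent.H74R5

open Finset

theorem cst_pos (r : ℕ) (hro : Odd r) : 0 < cst r := by
  unfold cst
  apply mul_pos
  · apply Finset.prod_pos
    intro l hl
    have hlp := Nat.prime_of_mem_primeFactors hl
    have hl3 : 3 ≤ l := by
      have h1 := hlp.two_le
      have h2 := Nat.dvd_of_mem_primeFactors hl
      rcases Nat.eq_or_lt_of_le h1 with h | h
      · subst h
        rw [Nat.odd_iff] at hro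
        omega
      · exact h
    have h3 : (3 : ℝ) ≤ l := by exact_mod_cast hl3
    rw [sub_pos, div_lt_one (by linarith)]
    linarith
  · have hpos : ∀ p : Nat.Primes, 0 < (if (p : ℕ) ∣ r then (1 : ℝ) else
        1 - 1 / (((p : ℕ) : ℝ) * (((p : ℕ) : ℝ) - 1))) := by
      intro p
      split_ifs
      · exact one_pos
      · exact Pool.Agent.H730R2.AA.Euler.one_sub_uu_pos p.2
    have hs : Summable fun p : Nat.Primes => (if (p : ℕ) ∣ r then (0 : ℝ) else
        - (1 / (((p : ℕ) : ℝ) * (((p : ℕ) : ℝ) - 1)))) := by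
      have h1 : Summable fun p : Nat.Primes => ‖Pool.Agent.H730R2.AA.Euler.hh (p : ℕ)‖ :=
        Pool.Agent.H730R2.AA.Euler.hh_summable.comp_injective Subtype.val_injective
      apply Summable.of_norm
      refine Summable.of_nonneg_of_le (fun _ => norm_nonneg _) (fun p => ?_) h1
      rw [Pool.Agent.H730R2.AA.Euler.hh_prime p.2]
      split_ifs
      · rw [norm_zero]; exact norm_nonneg _
      · exact le_rfl
    have hs2 := Real.summable_log_one_add_of_summable hs
    have e : (fun p : Nat.Primes => Real.log (1 + (if (p : ℕ) ∣ r then (0 : ℝ) else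
        - (1 / (((p : ℕ) : ℝ) * (((p : ℕ) : ℝ) - 1)))))) = fun p : Nat.Primes => Real.log
        (if (p : ℕ) ∣ r then (1 : ℝ) else 1 - 1 / (((p : ℕ) : ℝ) * (((p : ℕ) : ℝ) - 1))) := by
      funext p
      congr 1
      split_ifs
      · ring
      · ring
    rw [e] at hs2
    rw [← Real.rexp_tsum_eq_tprod hpos hs2]
    exact Real.exp_pos _

end Pool.Agent.H74R5
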